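import Pool.Agent.Q163.NL.Prob

/-!
# Necessity of the thresholds
-/

set_option autoImplicit false

namespace Pool.Agent.Q163.NL

open Finset Filter Topology MeasureTheory ProbabilityTheory
open Pool.Agent.Q163.RP
open Pool.Agent.Q163.RX (cm es signs mass ll)
open Pool.Agent.Q163.LX (lll cs)

/-- shift of a sum -/
lemma sum_shift_Icc {E : Type*} [AddCommGroup E] (F : ℕ → E) (n N : ℕ) :
    ∑ h ∈ Icc 1 N, F (n + h) = ∑ k ∈ Icc 1 N, F k + (∑ k ∈ Icc 1 n, F (N + k) - ∑ k ∈ Icc 1 n, F k) := by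
  have h1 : ∀ a b : ℕ, ∑ k ∈ Icc 1 (a + b), F k = ∑ k ∈ Icc 1 a, F k + ∑ h ∈ Icc 1 b, F (a + h) := by
    intro a b
    induction b with
    | zero => simp
    | succ b ih =>
      rw [← add_assoc, sum_Icc_succ_top (by omega), ih, sum_Icc_succ_top (by omega), add_assoc,
        add_assoc]
  have h2 := h1 n N
  have h3 := h1 N n
  rw [add_comm N n] at h3
  rw [h2] at h3
  have h4 : ∑ h ∈ Icc 1 N, F (n + h) = (∑ k ∈ Icc 1 N, F k + ∑ h ∈ Icc 1 n, F (N + h)) -
      ∑ k ∈ Icc 1 n, F k := by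
    rw [← h3]
    abel
  rw [h4]
  abel

theorem not_disj {F : ℕ → ℂ} (hF : ∀ n, ‖F n‖ ≤ 1) {c : ℝ} (hc : 0 < c)
    (h : ∃ᶠ N : ℕ in atTop, c * N ≤ ‖∑ n ∈ Icc 1 N, F n‖) : ¬ Disj F {fun _ => 1} := by
  intro hD
  obtain ⟨H0, hH0⟩ := hD (c / 8) (by positivity)
  have hlog : Tendsto (fun N : ℕ => Real.log (N : ℝ)) atTop atTop :=
    Real.tendsto_log_atTop.comp tendsto_natCast_atTop_atTop
  obtain ⟨N, hN1, hN2, hN3⟩ := (h.and_eventually ((eventually_ge_atTop (H0 + 1)).and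
    (hlog.eventually_gt_atTop (2 * |Real.log (c / 4)|)))).exists
  have hNR : (0 : ℝ) < N := by
    have : 0 < N := by omega
    exact_mod_cast this
  have h1 := hH0 N N (by omega) le_rfl (fun _ _ => 1) (fun _ => 0) (fun _ => rfl)
  set M : ℕ := ⌊c * N / 4⌋₊ with hM
  have hM1 : (M : ℝ) ≤ c * N / 4 := Nat.floor_le (by positivity)
  have hc1 : c ≤ 1 := by
    have h2 : ‖∑ n ∈ Icc 1 N, F n‖ ≤ N := by
      refine (norm_sum_le _ _).trans ((sum_le_sum fun n _ => hF n).trans ?_)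
      rw [sum_const, Nat.card_Icc, Nat.add_sub_cancel, nsmul_eq_mul, mul_one]
    have h3 : c * N ≤ 1 * N := by linarith
    exact le_of_mul_le_mul_right h3 hNR
  have hMN : M ≤ N := by
    have : (M : ℝ) ≤ N := by nlinarith
    exact_mod_cast this
  have h2 : ∀ n ∈ Icc 1 M, 1 / (n : ℝ) * (c * N / 2) ≤
      1 / (n : ℝ) * ‖∑ h ∈ Icc 1 N, (1 : ℂ) * F (n + h)‖ := by
    intro n hn
    refine mul_le_mul_of_nonneg_left ?_ (by positivity)
    have e1 : ∑ h ∈ Icc 1 N, (1 : ℂ) * F (n + h) = ∑ k ∈ Icc 1 N, F k +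
        (∑ k ∈ Icc 1 n, F (N + k) - ∑ k ∈ Icc 1 n, F k) := by
      rw [← sum_shift_Icc]
      exact sum_congr rfl fun h _ => one_mul _
    rw [e1]
    have h3 : ‖∑ k ∈ Icc 1 n, F (N + k) - ∑ k ∈ Icc 1 n, F k‖ ≤ 2 * n := by
      refine (norm_sub_le _ _).trans ?_
      have h4 : ‖∑ k ∈ Icc 1 n, F (N + k)‖ ≤ n := by
        refine (norm_sum_le _ _).trans ((sum_le_sum fun k _ => hF (N + k)).trans ?_)
        rw [sum_const, Nat.card_Icc, Nat.add_sub_cancel, nsmul_eq_mul, mul_one]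
      have h5 : ‖∑ k ∈ Icc 1 n, F k‖ ≤ n := by
        refine (norm_sum_le _ _).trans ((sum_le_sum fun k _ => hF k).trans ?_)
        rw [sum_const, Nat.card_Icc, Nat.add_sub_cancel, nsmul_eq_mul, mul_one]
      linarith
    have h4 : (n : ℝ) ≤ M := by exact_mod_cast (mem_Icc.1 hn).2
    have h5 : ‖∑ k ∈ Icc 1 N, F k‖ ≤ ‖∑ k ∈ Icc 1 N, F k +
        (∑ k ∈ Icc 1 n, F (N + k) - ∑ k ∈ Icc 1 n, F k)‖ +
        ‖∑ k ∈ Icc 1 n, F (N + k) - ∑ k ∈ Icc 1 n, F k‖ := by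
      refine le_trans (le_of_eq ?_) (norm_sub_le _ _)
      congr 1
      abel
    linarith
  have h3 : ∑ n ∈ Icc 1 M, 1 / (n : ℝ) * (c * N / 2) ≤ c / 8 * (N * Real.log N) := by
    refine (sum_le_sum h2).trans (le_trans ?_ h1)
    exact sum_le_sum_of_subset_of_nonneg (Icc_subset_Icc_right hMN) fun n _ _ => by positivity
  rw [← sum_mul] at h3
  have h4 : Real.log (c * N / 4) ≤ ∑ n ∈ Icc 1 M, 1 / (n : ℝ) := by
    have h5 := log_add_one_le_harmonic M
    rw [harmonic_eq_sum_Icc] at h5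
    push_cast at h5
    have h6 : Real.log (c * N / 4) ≤ Real.log ((M : ℝ) + 1) :=
      Real.log_le_log (by positivity) (Nat.lt_floor_add_one _).le
    refine (h6.trans h5).trans (le_of_eq ?_)
    exact sum_congr rfl fun n _ => by rw [one_div]
  have h5 : Real.log (c * N / 4) = Real.log (c / 4) + Real.log N := by
    rw [← Real.log_mul (by positivity) hNR.ne']
    congr 1
    ring
  have h6 : Real.log (c * N / 4) * (c * N / 2) ≤ c / 8 * (N * Real.log N) :=
    (mul_le_mul_of_nonneg_right h4 (by positivity)).trans h3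
  have h7 : 4 * Real.log (c * N / 4) ≤ Real.log N := by
    have h8 : (c * N / 8) * (4 * Real.log (c * N / 4)) ≤ (c * N / 8) * Real.log N := by linarith
    exact le_of_mul_le_mul_left h8 (by positivity)
  rw [h5] at h7
  have h8 := neg_abs_le (Real.log (c / 4))
  have h9 := abs_nonneg (Real.log (c / 4))
  linarith

theorem not_disjIter {F : ℕ → ℂ} (hF : ∀ n, ‖F n‖ ≤ 1) {c : ℝ} (hc : 0 < c)
    (h : ∃ᶠ N : ℕ in atTop, c * Real.log N ≤ ‖∑ n ∈ Icc 1 N, F n / n‖) :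
    ¬ DisjIter F {fun _ => 1} := by
  intro hD
  obtain ⟨H0, hH0⟩ := hD (c / 2) (by positivity)
  set H := H0 + 1 with hH
  have hHR : (0 : ℝ) < H := by rw [hH]; positivity
  have h1 := hH0 H (by omega)
  have hlog : Tendsto (fun N : ℕ => Real.log (N : ℝ)) atTop atTop :=
    Real.tendsto_log_atTop.comp tendsto_natCast_atTop_atTop
  obtain ⟨N, hN1, hN2, hN3, hN4⟩ := (h.and_eventually (h1.and ((hlog.eventually_gt_atTop
    (8 * H / c)).and (eventually_ge_atTop 1)))).exists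
  have h2 := hN2 (fun _ _ => 1) (fun _ => 0) (fun _ => rfl)
  have hsq : ∑ n ∈ Icc 1 N, 1 / (n : ℝ) ^ 2 ≤ 2 := by
    have h1 : ∀ M : ℕ, 1 ≤ M → ∑ n ∈ Icc 1 M, 1 / (n : ℝ) ^ 2 ≤ 2 - 1 / (M : ℝ) := by
      intro M hM
      induction M, hM using Nat.le_induction with
      | base => simp; norm_num
      | succ M hM ih =>
        rw [sum_Icc_succ_top (by omega)]
        have hMR : (0 : ℝ) < M := by exact_mod_cast hM
        have h2 : 1 / ((M + 1 : ℕ) : ℝ) ^ 2 ≤ 1 / M - 1 / ((M + 1 : ℕ) : ℝ) := by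
          push_cast
          rw [div_sub_div _ _ (by positivity) (by positivity), div_le_div_iff₀ (by positivity)
            (by positivity)]
          nlinarith
        linarith
    have h2 := h1 N hN4
    have : 0 ≤ 1 / (N : ℝ) := by positivity
    linarith
  -- one shift
  have key : ∀ h ∈ Icc 1 H, ‖∑ n ∈ Icc 1 N, F (n + h) / n - ∑ n ∈ Icc 1 N, F n / n‖ ≤ 4 * H := by
    intro h hh
    rw [mem_Icc] at hh
    have hhR : (h : ℝ) ≤ H := by exact_mod_cast hh.2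
    have e1 : ∑ n ∈ Icc 1 N, F (n + h) / ((n + h : ℕ) : ℂ) =
        ∑ n ∈ Icc 1 N, F n / n + (∑ k ∈ Icc 1 h, F (N + k) / ((N + k : ℕ) : ℂ) -
          ∑ k ∈ Icc 1 h, F k / k) := by
      rw [← sum_shift_Icc (fun k => F k / (k : ℂ)) h N]
      exact sum_congr rfl fun n _ => by rw [add_comm h n]
    have e2 : ∑ n ∈ Icc 1 N, F (n + h) / n - ∑ n ∈ Icc 1 N, F n / n =
        ∑ n ∈ Icc 1 N, (F (n + h) / n - F (n + h) / ((n + h : ℕ) : ℂ)) +
        (∑ k ∈ Icc 1 h, F (N + k) / ((N + k : ℕ) : ℂ) - ∑ k ∈ Icc 1 h, F k / k) := by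
      rw [sum_sub_distrib, e1]
      abel
    have hone : ∀ k : ℕ, 1 ≤ k → ‖F k / (k : ℂ)‖ ≤ 1 := by
      intro k hk
      rw [norm_div, Complex.norm_natCast]
      have : (1 : ℝ) ≤ k := by exact_mod_cast hk
      exact div_le_one_of_le₀ ((hF k).trans this) (by linarith)
    have b1 : ‖∑ k ∈ Icc 1 h, F (N + k) / ((N + k : ℕ) : ℂ)‖ ≤ h := by
      refine (norm_sum_le _ _).trans ((sum_le_sum fun k hk => hone (N + k) (by
        rw [mem_Icc] at hk
        omega)).trans ?_)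
      rw [sum_const, Nat.card_Icc, Nat.add_sub_cancel, nsmul_eq_mul, mul_one]
    have b2 : ‖∑ k ∈ Icc 1 h, F k / (k : ℂ)‖ ≤ h := by
      refine (norm_sum_le _ _).trans ((sum_le_sum fun k hk => hone k (mem_Icc.1 hk).1).trans ?_)
      rw [sum_const, Nat.card_Icc, Nat.add_sub_cancel, nsmul_eq_mul, mul_one]
    have b3 : ‖∑ n ∈ Icc 1 N, (F (n + h) / n - F (n + h) / ((n + h : ℕ) : ℂ))‖ ≤ 2 * h := by
      refine (norm_sum_le _ _).trans ?_
      calc ∑ n ∈ Icc 1 N, ‖F (n + h) / n - F (n + h) / ((n + h : ℕ) : ℂ)‖ ≤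
            ∑ n ∈ Icc 1 N, h * (1 / (n : ℝ) ^ 2) := by
            refine sum_le_sum fun n hn => ?_
            have hnR : (0 : ℝ) < n := by exact_mod_cast (mem_Icc.1 hn).1
            have hnC : (n : ℂ) ≠ 0 := by exact_mod_cast hnR.ne'
            have hnhC : ((n + h : ℕ) : ℂ) ≠ 0 := by
              have : n + h ≠ 0 := by omega
              exact_mod_cast this
            have e3 : F (n + h) / n - F (n + h) / ((n + h : ℕ) : ℂ) =
                F (n + h) * ((h : ℂ) / (n * ((n + h : ℕ) : ℂ))) := by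
              field_simp
              push_cast
              ring
            rw [e3, norm_mul, norm_div, norm_mul, Complex.norm_natCast, Complex.norm_natCast,
              Complex.norm_natCast]
            have h6 : (n : ℝ) ^ 2 ≤ n * ((n + h : ℕ) : ℝ) := by
              rw [sq]
              refine mul_le_mul_of_nonneg_left ?_ hnR.le
              push_cast
              have : (0 : ℝ) ≤ h := Nat.cast_nonneg _
              linarith
            calc ‖F (n + h)‖ * ((h : ℝ) / (n * ((n + h : ℕ) : ℝ))) ≤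
                  1 * ((h : ℝ) / (n * ((n + h : ℕ) : ℝ))) :=
                  mul_le_mul_of_nonneg_right (hF _) (by positivity)
              _ = (h : ℝ) / (n * ((n + h : ℕ) : ℝ)) := one_mul _
              _ ≤ (h : ℝ) / (n : ℝ) ^ 2 := div_le_div_of_nonneg_left (by positivity) (by positivity) h6
              _ = h * (1 / (n : ℝ) ^ 2) := by ring
        _ = h * ∑ n ∈ Icc 1 N, 1 / (n : ℝ) ^ 2 := by rw [mul_sum]
        _ ≤ h * 2 := mul_le_mul_of_nonneg_left hsq (Nat.cast_nonneg _)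
        _ = 2 * h := by ring
    rw [e2]
    refine (norm_add_le _ _).trans ?_
    have b4 := norm_sub_le (∑ k ∈ Icc 1 h, F (N + k) / ((N + k : ℕ) : ℂ)) (∑ k ∈ Icc 1 h, F k / (k : ℂ))
    linarith
  have h3 : ‖∑ h ∈ Icc 1 H, ∑ n ∈ Icc 1 N, F (n + h) / n‖ ≤ c / 2 * (H * Real.log N) := by
    refine le_trans ?_ h2
    rw [sum_comm]
    refine (norm_sum_le _ _).trans (sum_le_sum fun n hn => le_of_eq ?_)
    rw [← sum_div, norm_div, Complex.norm_natCast, div_eq_mul_one_div, mul_comm]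
    congr 2
    exact sum_congr rfl fun h _ => (one_mul _).symm
  have h4 : ‖∑ h ∈ Icc 1 H, (∑ n ∈ Icc 1 N, F (n + h) / n - ∑ n ∈ Icc 1 N, F n / n)‖ ≤
      H * (4 * H) := by
    refine (norm_sum_le _ _).trans ((sum_le_sum key).trans ?_)
    rw [sum_const, Nat.card_Icc, Nat.add_sub_cancel, nsmul_eq_mul]
  rw [sum_sub_distrib, sum_const, Nat.card_Icc, Nat.add_sub_cancel] at h4
  have h5 : (H : ℝ) * ‖∑ n ∈ Icc 1 N, F n / n‖ = ‖H • ∑ n ∈ Icc 1 N, F n / (n : ℂ)‖ := by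
    rw [← Nat.cast_smul_eq_nsmul ℂ, norm_smul, Complex.norm_natCast]
  have h6 : ‖H • ∑ n ∈ Icc 1 N, F n / (n : ℂ)‖ ≤ c / 2 * (H * Real.log N) + H * (4 * H) := by
    have h7 : H • ∑ n ∈ Icc 1 N, F n / (n : ℂ) = ∑ h ∈ Icc 1 H, ∑ n ∈ Icc 1 N, F (n + h) / (n : ℂ) -
        (∑ h ∈ Icc 1 H, ∑ n ∈ Icc 1 N, F (n + h) / (n : ℂ) - H • ∑ n ∈ Icc 1 N, F n / (n : ℂ)) := by
      rw [sub_sub_cancel]
    rw [h7]
    exact (norm_sub_le _ _).trans (add_le_add h3 h4)
  rw [← h5] at h6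
  have h7 : (H : ℝ) * (c * Real.log N) ≤ H * (c / 2 * Real.log N + 4 * H) := by
    have := mul_le_mul_of_nonneg_left hN1 hHR.le
    linarith
  have h8 := le_of_mul_le_mul_left h7 hHR
  rw [div_lt_iff₀ hc] at hN3
  linarith

end Pool.Agent.Q163.NL
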