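import Pool.Agent.Q163.ND.Ext

/-!
# Short windows: from vanishing weighted correlations to suprema over thin sets
-/

set_option autoImplicit false

namespace Pool.Agent.Q163.NL

open Finset Filter Topology
open Pool.Agent.Q163.ND (Thin block_avg)

/-- the amplitude -/
noncomputable def amp (f : ℕ → ℂ) (c : ℂ) (n : ℕ) : ℝ := (c * f n).re

/-- the coefficients of the expansion -/
noncomputable def W (f : ℕ → ℂ) (c : ℕ → ℂ) (L : ℕ) (S : Finset ℕ) (n : ℕ) : ℝ :=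
  (∏ h ∈ S, Real.sinh (amp f (c h) (n + h))) * ∏ h ∈ range L \ S, Real.cosh (amp f (c h) (n + h))

lemma exp_sign (t x : ℝ) (hx : x = 1 ∨ x = -1) :
    Real.exp (t * x) = Real.sinh t * x + Real.cosh t := by
  rcases hx with rfl | rfl
  · rw [mul_one, mul_one, add_comm, Real.cosh_add_sinh]
  · rw [mul_neg_one, mul_neg_one, neg_add_eq_sub, Real.cosh_sub_sinh]

lemma expand (f : ℕ → ℂ) (c : ℕ → ℂ) (L : ℕ) (x : ℕ → ℝ) (hx : ∀ n, 1 ≤ n → x n = 1 ∨ x n = -1)
    {n : ℕ} (hn : 1 ≤ n) :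
    Real.exp (∑ h ∈ range L, amp f (c h) (n + h) * x (n + h)) =
      ∑ S ∈ (range L).powerset, W f c L S n * ∏ h ∈ S, x (n + h) := by
  rw [Real.exp_sum, prod_congr rfl fun h _ => exp_sign _ _ (hx (n + h) (by omega)), prod_add]
  refine sum_congr rfl fun S _ => ?_
  rw [prod_mul_distrib]
  unfold W
  ring

lemma amp_le (f : ℕ → ℂ) (hf : ∀ n, ‖f n‖ ≤ 1) (c : ℂ) (n : ℕ) : |amp f c n| ≤ ‖c‖ := by
  unfold amp
  refine (Complex.abs_re_le_norm _).trans ?_
  rw [norm_mul]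
  calc ‖c‖ * ‖f n‖ ≤ ‖c‖ * 1 := mul_le_mul_of_nonneg_left (hf n) (norm_nonneg _)
    _ = ‖c‖ := mul_one _

lemma W_empty_le (f : ℕ → ℂ) (hf : ∀ n, ‖f n‖ ≤ 1) (c : ℕ → ℂ) (L n : ℕ) :
    W f c L ∅ n ≤ Real.exp ((∑ h ∈ range L, ‖c h‖ ^ 2) / 2) := by
  unfold W
  rw [prod_empty, one_mul, sdiff_empty, sum_div, Real.exp_sum]
  refine prod_le_prod (fun h _ => (Real.cosh_pos _).le) fun h _ => ?_
  refine (Real.cosh_le_exp_half_sq _).trans (Real.exp_le_exp.2 ?_)
  have h1 := amp_le f hf (c h) (n + h)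
  have h2 : amp f (c h) (n + h) ^ 2 ≤ ‖c h‖ ^ 2 := by
    rw [← sq_abs]
    exact pow_le_pow_left₀ (abs_nonneg _) h1 2
  linarith

/-- a bound of the coefficients -/
lemma W_abs_le (f : ℕ → ℂ) (hf : ∀ n, ‖f n‖ ≤ 1) (c : ℕ → ℂ) (L : ℕ) (S : Finset ℕ)
    (hS : S ⊆ range L) (n : ℕ) : |W f c L S n| ≤ Real.exp (∑ h ∈ range L, ‖c h‖) := by
  have hc : ∀ t : ℝ, Real.cosh t ≤ Real.exp |t| := fun t => by
    rw [← Real.cosh_abs, Real.cosh_eq]
    have h1 : Real.exp (-|t|) ≤ Real.exp |t| := Real.exp_le_exp.2 (by linarith [abs_nonneg t])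
    linarith
  have hs : ∀ t : ℝ, |Real.sinh t| ≤ Real.exp |t| := fun t => by
    refine le_trans ?_ (hc t)
    rw [abs_le]
    have h1 := Real.cosh_sub_sinh t
    have h2 := Real.cosh_add_sinh t
    have h3 := Real.exp_pos (-t)
    have h4 := Real.exp_pos t
    constructor <;> linarith
  unfold W
  rw [abs_mul, abs_prod, abs_prod, Real.exp_sum, ← prod_sdiff hS, mul_comm]
  refine mul_le_mul ?_ ?_ (prod_nonneg fun _ _ => abs_nonneg _) (prod_nonneg fun _ _ => (Real.exp_pos _).le)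
  · refine prod_le_prod (fun _ _ => abs_nonneg _) fun h _ => ?_
    rw [abs_of_pos (Real.cosh_pos _)]
    exact (hc _).trans (Real.exp_le_exp.2 (amp_le f hf _ _))
  · refine prod_le_prod (fun _ _ => abs_nonneg _) fun h _ => ?_
    exact (hs _).trans (Real.exp_le_exp.2 (amp_le f hf _ _))

/-- rational coefficients -/
noncomputable def cf (A : ℕ →₀ ℤ × ℤ) (m : ℕ) (h : ℕ) : ℂ :=
  (((A h).1 : ℂ) + ((A h).2 : ℂ) * Complex.I) / m

/-- all the weighted correlations needed here vanish for the averages `κ` -/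
def Dec (κ : ℕ → ℕ → ℝ) (f : ℕ → ℂ) (x : ℕ → ℝ) : Prop :=
  ∀ (A : ℕ →₀ ℤ × ℤ) (m L : ℕ) (S : Finset ℕ), S ⊆ range L → S.Nonempty →
    Tendsto (fun N : ℕ => ∑ n ∈ Icc 1 N, κ N n * (W f (cf A m) L S n * ∏ h ∈ S, x (n + h)))
      atTop (𝓝 0)

/-- averages -/
structure Avg (κ : ℕ → ℕ → ℝ) : Prop where
  nonneg : ∀ N n, 0 ≤ κ N n
  mass : ∀ᶠ N : ℕ in atTop, ∑ n ∈ Icc 1 N, κ N n ≤ 3 / 2

lemma expo {κ : ℕ → ℕ → ℝ} (hκ : Avg κ) {f : ℕ → ℂ} (hf : ∀ n, ‖f n‖ ≤ 1) {x : ℕ → ℝ}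
    (hx : ∀ n, 1 ≤ n → x n = 1 ∨ x n = -1) (hD : Dec κ f x) (A : ℕ →₀ ℤ × ℤ) (m L : ℕ) :
    ∀ᶠ N : ℕ in atTop, ∑ n ∈ Icc 1 N, κ N n *
      Real.exp (∑ h ∈ range L, amp f (cf A m h) (n + h) * x (n + h)) ≤
        2 * Real.exp ((∑ h ∈ range L, ‖cf A m h‖ ^ 2) / 2) := by
  classical
  have h1 : Tendsto (fun N : ℕ => ∑ S ∈ (range L).powerset.erase ∅, ∑ n ∈ Icc 1 N, κ N n *
      (W f (cf A m) L S n * ∏ h ∈ S, x (n + h))) atTop (𝓝 0) := by
    have h2 : (0 : ℝ) = ∑ S ∈ (range L).powerset.erase ∅, 0 := by rw [sum_const_zero]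
    rw [h2]
    refine tendsto_finsetSum _ fun S hS => ?_
    rw [mem_erase, mem_powerset] at hS
    exact hD A m L S hS.2 (nonempty_iff_ne_empty.2 hS.1)
  have h3 : ∀ᶠ N : ℕ in atTop, ∑ S ∈ (range L).powerset.erase ∅, ∑ n ∈ Icc 1 N, κ N n *
      (W f (cf A m) L S n * ∏ h ∈ S, x (n + h)) ≤ 1 / 2 :=
    (h1.eventually (gt_mem_nhds (by norm_num : (0 : ℝ) < 1 / 2))).mono fun N h => h.le
  filter_upwards [h3, hκ.mass] with N h4 h5
  have e1 : ∑ n ∈ Icc 1 N, κ N n *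
      Real.exp (∑ h ∈ range L, amp f (cf A m h) (n + h) * x (n + h)) =
      ∑ S ∈ (range L).powerset, ∑ n ∈ Icc 1 N, κ N n *
        (W f (cf A m) L S n * ∏ h ∈ S, x (n + h)) := by
    rw [sum_comm]
    refine sum_congr rfl fun n hn => ?_
    rw [expand f (cf A m) L x hx (mem_Icc.1 hn).1, mul_sum]
  rw [e1, ← add_sum_erase _ _ (empty_mem_powerset (range L))]
  have h6 : ∑ n ∈ Icc 1 N, κ N n * (W f (cf A m) L ∅ n * ∏ h ∈ (∅ : Finset ℕ), x (n + h)) ≤
      3 / 2 * Real.exp ((∑ h ∈ range L, ‖cf A m h‖ ^ 2) / 2) := by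
    calc ∑ n ∈ Icc 1 N, κ N n * (W f (cf A m) L ∅ n * ∏ h ∈ (∅ : Finset ℕ), x (n + h)) ≤
          ∑ n ∈ Icc 1 N, κ N n * Real.exp ((∑ h ∈ range L, ‖cf A m h‖ ^ 2) / 2) := by
          refine sum_le_sum fun n _ => mul_le_mul_of_nonneg_left ?_ (hκ.nonneg N n)
          rw [prod_empty, mul_one]
          exact W_empty_le f hf _ L n
      _ = (∑ n ∈ Icc 1 N, κ N n) * Real.exp ((∑ h ∈ range L, ‖cf A m h‖ ^ 2) / 2) := by
          rw [sum_mul]
      _ ≤ _ := mul_le_mul_of_nonneg_right h5 (Real.exp_pos _).le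
  have h7 : 1 ≤ Real.exp ((∑ h ∈ range L, ‖cf A m h‖ ^ 2) / 2) := Real.one_le_exp (by positivity)
  linarith

/-- rotation by a right angle -/
noncomputable def rot (A : ℕ →₀ ℤ × ℤ) : ℕ →₀ ℤ × ℤ := A.mapRange (fun p => (-p.2, p.1)) (by simp)

lemma cf_rot (A : ℕ →₀ ℤ × ℤ) (m h : ℕ) : cf (rot A) m h = Complex.I * cf A m h := by
  unfold cf rot
  rw [Finsupp.mapRange_apply]
  push_cast
  rw [mul_div_assoc']
  congr 1
  have := Complex.I_mul_I
  linear_combination (-((A h).2 : ℂ)) * this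

lemma cf_rot_iter (A : ℕ →₀ ℤ × ℤ) (m h k : ℕ) : cf (rot^[k] A) m h = Complex.I ^ k * cf A m h := by
  induction k with
  | zero => simp
  | succ k ih => rw [Function.iterate_succ_apply', cf_rot, ih, pow_succ]; ring

lemma cf_div (A : ℕ →₀ ℤ × ℤ) (m j h : ℕ) : cf A (m * j) h = cf A m h / j := by
  unfold cf
  rw [div_div]
  push_cast
  rfl

lemma four (z : ℂ) (s : ℝ) (h : 2 * s < ‖z‖) : ∃ k ∈ range 4, s < (Complex.I ^ k * z).re := by
  have h1 := Complex.norm_le_abs_re_add_abs_im z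
  have h2 : s < |z.re| ∨ s < |z.im| := by
    by_contra hc
    push Not at hc
    linarith [hc.1, hc.2]
  rcases h2 with h2 | h2
  · rcases lt_abs.1 h2 with h3 | h3
    · exact ⟨0, by simp, by simpa using h3⟩
    · exact ⟨2, by simp, by simpa [Complex.I_sq] using h3⟩
  · rcases lt_abs.1 h2 with h3 | h3
    · refine ⟨3, by simp, ?_⟩
      have : Complex.I ^ 3 = -Complex.I := by
        rw [pow_succ, Complex.I_sq]
        ring
      rw [this]
      simpa using h3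
    · refine ⟨1, by simp, ?_⟩
      rw [pow_one]
      simpa using h3

/-- the window sum -/
noncomputable def Z (f : ℕ → ℂ) (x : ℕ → ℝ) (A : ℕ →₀ ℤ × ℤ) (m L n : ℕ) : ℂ :=
  ∑ h ∈ range L, cf A m h * (f (n + h) * x (n + h))

lemma amp_sum (f : ℕ → ℂ) (x : ℕ → ℝ) (A : ℕ →₀ ℤ × ℤ) (m j L n k : ℕ) :
    ∑ h ∈ range L, amp f (cf (rot^[k] A) (m * j) h) (n + h) * x (n + h) =
      (Complex.I ^ k * Z f x A m L n).re / j := by
  unfold amp Z
  rw [mul_sum, Complex.re_sum, sum_div]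
  refine sum_congr rfl fun h _ => ?_
  rw [cf_div, cf_rot_iter]
  have e1 : Complex.I ^ k * (cf A m h * (f (n + h) * (x (n + h) : ℂ))) =
      ((x (n + h) : ℝ) : ℂ) * (Complex.I ^ k * cf A m h * f (n + h)) := by ring
  have e2 : Complex.I ^ k * cf A m h / (j : ℂ) * f (n + h) =
      (((j : ℝ)⁻¹ : ℝ) : ℂ) * (Complex.I ^ k * cf A m h * f (n + h)) := by
    push_cast
    ring
  rw [e1, e2, Complex.re_ofReal_mul, Complex.re_ofReal_mul]
  ring

open Classical in
lemma tail1 {κ : ℕ → ℕ → ℝ} (hκ : Avg κ) {f : ℕ → ℂ} (hf : ∀ n, ‖f n‖ ≤ 1) {x : ℕ → ℝ}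
    (hx : ∀ n, 1 ≤ n → x n = 1 ∨ x n = -1) (hD : Dec κ f x) (A : ℕ →₀ ℤ × ℤ) (m j L : ℕ)
    (hj : 1 ≤ j) (hA : ∀ h < L, ‖cf A m h‖ ≤ 3) (s : ℝ) :
    ∀ᶠ N : ℕ in atTop, ∑ n ∈ (Icc 1 N).filter (fun n => 2 * s < ‖Z f x A m L n‖), κ N n ≤
      8 * Real.exp (9 * L / (2 * j ^ 2) - s / j) := by
  have hjR : (0 : ℝ) < j := by exact_mod_cast hj
  have h1 : ∀ᶠ N : ℕ in atTop, ∀ k ∈ range 4, ∑ n ∈ Icc 1 N, κ N n *
      Real.exp (∑ h ∈ range L, amp f (cf (rot^[k] A) (m * j) h) (n + h) * x (n + h)) ≤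
        2 * Real.exp ((∑ h ∈ range L, ‖cf (rot^[k] A) (m * j) h‖ ^ 2) / 2) := by
    rw [eventually_all_finset]
    exact fun k _ => expo hκ hf hx hD _ _ L
  filter_upwards [h1] with N h2
  have h3 : ∀ n ∈ (Icc 1 N).filter (fun n => 2 * s < ‖Z f x A m L n‖), κ N n ≤
      ∑ k ∈ range 4, κ N n * (Real.exp (-(s / j)) *
        Real.exp (∑ h ∈ range L, amp f (cf (rot^[k] A) (m * j) h) (n + h) * x (n + h))) := by
    intro n hn
    obtain ⟨k, hk, h4⟩ := four _ s (mem_filter.1 hn).2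
    have h5 : κ N n ≤ κ N n * (Real.exp (-(s / j)) *
        Real.exp (∑ h ∈ range L, amp f (cf (rot^[k] A) (m * j) h) (n + h) * x (n + h))) := by
      rw [← Real.exp_add, amp_sum]
      have h6 : 1 ≤ Real.exp (-(s / j) + (Complex.I ^ k * Z f x A m L n).re / j) := by
        refine Real.one_le_exp ?_
        rw [neg_add_eq_sub, ← sub_div]
        exact div_nonneg (by linarith) hjR.le
      calc κ N n = κ N n * 1 := (mul_one _).symm
        _ ≤ _ := mul_le_mul_of_nonneg_left h6 (hκ.nonneg N n)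
    refine h5.trans ?_
    exact single_le_sum (f := fun k => κ N n * (Real.exp (-(s / j)) *
        Real.exp (∑ h ∈ range L, amp f (cf (rot^[k] A) (m * j) h) (n + h) * x (n + h))))
      (fun k _ => mul_nonneg (hκ.nonneg N n) (by positivity)) hk
  refine (sum_le_sum h3).trans ?_
  have h4 : ∑ n ∈ (Icc 1 N).filter (fun n => 2 * s < ‖Z f x A m L n‖), ∑ k ∈ range 4,
      κ N n * (Real.exp (-(s / j)) *
        Real.exp (∑ h ∈ range L, amp f (cf (rot^[k] A) (m * j) h) (n + h) * x (n + h))) ≤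
      ∑ n ∈ Icc 1 N, ∑ k ∈ range 4, κ N n * (Real.exp (-(s / j)) *
        Real.exp (∑ h ∈ range L, amp f (cf (rot^[k] A) (m * j) h) (n + h) * x (n + h))) :=
    sum_le_sum_of_subset_of_nonneg (filter_subset _ _) fun n _ _ =>
      sum_nonneg fun k _ => mul_nonneg (hκ.nonneg N n) (by positivity)
  refine h4.trans ?_
  rw [sum_comm]
  have h5 : ∀ k ∈ range 4, ∑ n ∈ Icc 1 N, κ N n * (Real.exp (-(s / j)) *
        Real.exp (∑ h ∈ range L, amp f (cf (rot^[k] A) (m * j) h) (n + h) * x (n + h))) ≤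
      2 * Real.exp (9 * L / (2 * j ^ 2) - s / j) := by
    intro k hk
    have e1 : ∑ n ∈ Icc 1 N, κ N n * (Real.exp (-(s / j)) *
        Real.exp (∑ h ∈ range L, amp f (cf (rot^[k] A) (m * j) h) (n + h) * x (n + h))) =
        Real.exp (-(s / j)) * ∑ n ∈ Icc 1 N, κ N n *
        Real.exp (∑ h ∈ range L, amp f (cf (rot^[k] A) (m * j) h) (n + h) * x (n + h)) := by
      rw [mul_sum]
      exact sum_congr rfl fun n _ => by ring
    rw [e1]
    have e2 : (∑ h ∈ range L, ‖cf (rot^[k] A) (m * j) h‖ ^ 2) / 2 ≤ 9 * L / (2 * j ^ 2) := by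
      have e3 : ∀ h ∈ range L, ‖cf (rot^[k] A) (m * j) h‖ ^ 2 ≤ 9 / j ^ 2 := by
        intro h hh
        rw [cf_div, cf_rot_iter, norm_div, norm_mul, norm_pow, Complex.norm_I, one_pow, one_mul,
          Complex.norm_natCast, div_pow]
        have h6 := hA h (mem_range.1 hh)
        have h7 : ‖cf A m h‖ ^ 2 ≤ 9 := by nlinarith [norm_nonneg (cf A m h)]
        gcongr
      have e4 := sum_le_sum e3
      rw [sum_const, card_range, nsmul_eq_mul] at e4
      calc (∑ h ∈ range L, ‖cf (rot^[k] A) (m * j) h‖ ^ 2) / 2 ≤ (L * (9 / j ^ 2)) / 2 := by linarith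
        _ = 9 * L / (2 * j ^ 2) := by field_simp
    calc Real.exp (-(s / j)) * ∑ n ∈ Icc 1 N, κ N n *
        Real.exp (∑ h ∈ range L, amp f (cf (rot^[k] A) (m * j) h) (n + h) * x (n + h)) ≤
          Real.exp (-(s / j)) * (2 * Real.exp (9 * L / (2 * j ^ 2))) :=
          mul_le_mul_of_nonneg_left ((h2 k hk).trans (mul_le_mul_of_nonneg_left
            (Real.exp_le_exp.2 e2) (by norm_num))) (Real.exp_pos _).le
      _ = 2 * (Real.exp (9 * L / (2 * j ^ 2)) * Real.exp (-(s / j))) := by ring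
      _ = 2 * Real.exp (9 * L / (2 * j ^ 2) - s / j) := by rw [← Real.exp_add, sub_eq_add_neg]
  refine (sum_le_sum h5).trans (le_of_eq ?_)
  rw [sum_const, card_range, nsmul_eq_mul]
  ring

/-- rounding -/
noncomputable def rnd (u : ℕ → ℂ) (m L : ℕ) : ℕ →₀ ℤ × ℤ :=
  Finsupp.onFinset (range L) (fun h => if h < L then (⌊m * (u h).re⌋, ⌊m * (u h).im⌋) else 0)
    fun h hh => by
      rw [mem_range]
      by_contra hc
      exact hh (if_neg hc)

lemma rnd_near (u : ℕ → ℂ) {m L : ℕ} (hm : 1 ≤ m) {h : ℕ} (hh : h < L) :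
    ‖u h - cf (rnd u m L) m h‖ ≤ 2 / m := by
  have hmR : (0 : ℝ) < m := by exact_mod_cast hm
  have e1 : rnd u m L h = (⌊m * (u h).re⌋, ⌊m * (u h).im⌋) := by
    unfold rnd
    rw [Finsupp.onFinset_apply, if_pos hh]
  have h1 : ∀ t : ℝ, |t - (⌊m * t⌋ : ℝ) / m| ≤ 1 / m := by
    intro t
    have h2 := Int.floor_le (m * t)
    have h3 := Int.lt_floor_add_one (m * t)
    have h4 : t - (⌊m * t⌋ : ℝ) / m = (m * t - ⌊m * t⌋) / m := by field_simp
    rw [h4, abs_div, abs_of_pos hmR]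
    refine div_le_div_of_nonneg_right ?_ hmR.le
    rw [abs_le]
    constructor <;> linarith
  have h5 := Complex.norm_le_abs_re_add_abs_im (u h - cf (rnd u m L) m h)
  have e2 : (cf (rnd u m L) m h) = (((⌊m * (u h).re⌋ : ℝ) / m : ℝ) : ℂ) +
      (((⌊m * (u h).im⌋ : ℝ) / m : ℝ) : ℂ) * Complex.I := by
    unfold cf
    rw [e1]
    push_cast
    ring
  have e3 : (cf (rnd u m L) m h).re = (⌊m * (u h).re⌋ : ℝ) / m := by rw [e2]; simp
  have e4 : (cf (rnd u m L) m h).im = (⌊m * (u h).im⌋ : ℝ) / m := by rw [e2]; simp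
  rw [Complex.sub_re, Complex.sub_im, e3, e4] at h5
  have h6 := h1 (u h).re
  have h7 := h1 (u h).im
  calc _ ≤ _ := h5
    _ ≤ 1 / m + 1 / m := add_le_add h6 h7
    _ = 2 / m := by ring

open Classical in
lemma sum_filter_exists {ι : Type*} (s : Finset ℕ) (U : Finset ι) (p : ι → ℕ → Prop) (w : ℕ → ℝ)
    (hw : ∀ n, 0 ≤ w n) : ∑ n ∈ s.filter (fun n => ∃ u ∈ U, p u n), w n ≤
      ∑ u ∈ U, ∑ n ∈ s.filter (p u), w n := by
  rw [sum_filter]
  have h1 : ∀ u ∈ U, ∑ n ∈ s.filter (p u), w n = ∑ n ∈ s, if p u n then w n else 0 :=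
    fun u _ => sum_filter _ _
  rw [sum_congr rfl h1, sum_comm]
  refine sum_le_sum fun n _ => ?_
  split_ifs with h
  · obtain ⟨u, hu, h2⟩ := h
    calc w n = if p u n then w n else 0 := (if_pos h2).symm
      _ ≤ _ := single_le_sum (f := fun u => if p u n then w n else 0)
          (fun u _ => by split_ifs <;> [exact hw n; exact le_rfl]) hu
  · exact sum_nonneg fun u _ => by split_ifs <;> [exact hw n; exact le_rfl]

/-- **The core.** -/
theorem core {κ : ℕ → ℕ → ℝ} (hκ : Avg κ) {f : ℕ → ℂ} (hf : ∀ n, ‖f n‖ ≤ 1) {x : ℕ → ℝ}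
    (hx : ∀ n, 1 ≤ n → x n = 1 ∨ x n = -1) (hD : Dec κ f x) {V : Set (ℕ → ℂ)} (hV : Thin V)
    (hV1 : ∀ v ∈ V, ∀ n, ‖v n‖ ≤ 1) (ε : ℝ) (hε : 0 < ε) :
    ∃ L : ℕ, 1 ≤ L ∧ ∃ G : ℕ → ℝ, (∀ n, 0 ≤ G n) ∧ (∀ n, G n ≤ (ε + 1) * L) ∧
      (∀ n, 1 ≤ n → ∀ v ∈ V, ∀ o : ℕ,
        ‖∑ h ∈ range L, v (o + h) * (f (n + h) * x (n + h))‖ ≤ G n) ∧
      ∀ᶠ N : ℕ in atTop, ∑ n ∈ Icc 1 N, κ N n * G n ≤ ε * L := by
  classical
  set η : ℝ := ε / 4 with hη
  have hη0 : 0 < η := by positivity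
  obtain ⟨j, hj⟩ := exists_nat_ge (18 / η + 1)
  have hjR : (0 : ℝ) < j := lt_of_lt_of_le (by positivity) hj
  have hj1 : 1 ≤ j := by
    have : (0 : ℝ) < j := hjR
    exact_mod_cast this
  have hj18 : 18 ≤ η * j := by
    have h1 : 18 / η ≤ j := by linarith
    rw [div_le_iff₀ hη0] at h1
    linarith
  set δ : ℝ := min (η / (8 * j)) (ε / 8) with hδ
  have hδ0 : 0 < δ := by positivity
  obtain ⟨m, hm⟩ := exists_nat_ge (16 / ε + 2)
  have hmR : (2 : ℝ) ≤ m := by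
    have : 0 ≤ 16 / ε := by positivity
    linarith
  have hm1 : 1 ≤ m := by
    have : (1 : ℝ) ≤ m := by linarith
    exact_mod_cast this
  have hm2 : 2 / (m : ℝ) ≤ ε / 8 := by
    have h1 : 16 / ε ≤ m := by linarith
    rw [div_le_iff₀ hε] at h1
    rw [div_le_iff₀ (by linarith)]
    linarith
  have hm3 : 2 / (m : ℝ) ≤ 1 := by
    rw [div_le_one (by linarith)]
    exact hmR
  have ev : ∀ᶠ L : ℕ in atTop, 8 * Real.exp (-(η / (8 * j)) * L) ≤ ε / 4 := by
    have h1 : Tendsto (fun L : ℕ => 8 * Real.exp (-(η / (8 * j)) * L)) atTop (𝓝 (8 * 0)) := by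
      refine Tendsto.const_mul 8 (Real.tendsto_exp_atBot.comp ?_)
      exact tendsto_natCast_atTop_atTop.const_mul_atTop_of_neg (by
        have : 0 < η / (8 * j) := by positivity
        linarith)
    rw [mul_zero] at h1
    exact (h1.eventually (gt_mem_nhds (by positivity))).mono fun L h => h.le
  obtain ⟨L, ⟨U, hU1, hU2, hU3⟩, hL1, hL2⟩ := ((hV δ hδ0).and (ev.and (eventually_ge_atTop 1))).exists
  have hLR : (0 : ℝ) < L := by exact_mod_cast hL2
  -- the exceptional set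
  set Bad : ℕ → Prop := fun n => ∃ u ∈ U, 2 * (η * L / 2) < ‖Z f x (rnd u m L) m L n‖ with hBad
  have hnear : ∀ u ∈ U, ∀ h < L, ‖cf (rnd u m L) m h‖ ≤ 3 := by
    intro u hu h hh
    have h1 := rnd_near u hm1 hh
    have h2 := hU2 u hu h
    calc ‖cf (rnd u m L) m h‖ = ‖u h - (u h - cf (rnd u m L) m h)‖ := by rw [sub_sub_cancel]
      _ ≤ ‖u h‖ + ‖u h - cf (rnd u m L) m h‖ := norm_sub_le _ _
      _ ≤ 3 := by linarith
  have hbadev : ∀ᶠ N : ℕ in atTop, ∑ n ∈ (Icc 1 N).filter Bad, κ N n ≤ ε / 4 := by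
    have h1 : ∀ᶠ N : ℕ in atTop, ∀ u ∈ U, ∑ n ∈ (Icc 1 N).filter
        (fun n => 2 * (η * L / 2) < ‖Z f x (rnd u m L) m L n‖), κ N n ≤
        8 * Real.exp (9 * L / (2 * j ^ 2) - (η * L / 2) / j) := by
      rw [eventually_all_finset]
      exact fun u hu => tail1 hκ hf hx hD _ m j L hj1 (hnear u hu) _
    filter_upwards [h1] with N h2
    have h4 : ∑ n ∈ (Icc 1 N).filter Bad, κ N n ≤ ∑ u ∈ U, ∑ n ∈ (Icc 1 N).filter
        (fun n => 2 * (η * L / 2) < ‖Z f x (rnd u m L) m L n‖), κ N n :=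
      sum_filter_exists (Icc 1 N) U (fun u n => 2 * (η * L / 2) < ‖Z f x (rnd u m L) m L n‖)
        (κ N) (hκ.nonneg N)
    refine (h4.trans (sum_le_sum h2)).trans ?_
    rw [sum_const, nsmul_eq_mul]
    have h5 : 9 * (L : ℝ) / (2 * j ^ 2) - (η * L / 2) / j ≤ -(η / (4 * j)) * L := by
      have h6 : 9 * (L : ℝ) / (2 * j ^ 2) ≤ η * L / (4 * j) := by
        rw [div_le_div_iff₀ (by positivity) (by positivity)]
        have h7 : 18 * (L * j) ≤ (η * j) * (L * j) := mul_le_mul_of_nonneg_right hj18 (by positivity)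
        nlinarith
      have h8 : (η * L / 2) / j = 2 * (η * L / (4 * j)) := by field_simp; ring
      have h9 : -(η / (4 * j)) * L = -(η * L / (4 * j)) := by ring
      rw [h8, h9]
      linarith
    have h6 : (U.card : ℝ) ≤ Real.exp (η / (8 * j) * L) :=
      hU1.trans (Real.exp_le_exp.2 (mul_le_mul_of_nonneg_right (min_le_left _ _) hLR.le))
    calc (U.card : ℝ) * (8 * Real.exp (9 * L / (2 * j ^ 2) - (η * L / 2) / j)) ≤
          Real.exp (η / (8 * j) * L) * (8 * Real.exp (-(η / (4 * j)) * L)) :=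
          mul_le_mul h6 (mul_le_mul_of_nonneg_left (Real.exp_le_exp.2 h5) (by norm_num))
            (by positivity) (Real.exp_pos _).le
      _ = 8 * (Real.exp (η / (8 * j) * L) * Real.exp (-(η / (4 * j)) * L)) := by ring
      _ = 8 * Real.exp (-(η / (8 * j)) * L) := by
          rw [← Real.exp_add]
          congr 2
          field_simp
          ring
      _ ≤ ε / 4 := hL1
  set G : ℕ → ℝ := fun n => ε / 2 * L + if Bad n then (L : ℝ) else 0 with hG
  refine ⟨L, hL2, G, fun n => ?_, fun n => ?_, fun n hn v hv o => ?_, ?_⟩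
  · rw [hG]
    simp only
    split_ifs <;> positivity
  · rw [hG]
    simp only
    split_ifs
    · nlinarith
    · nlinarith
  · have hFn : ∀ h, ‖(f (n + h) * x (n + h) : ℂ)‖ ≤ 1 := by
      intro h
      rw [norm_mul, Complex.norm_real, Real.norm_eq_abs]
      have h1 : |x (n + h)| = 1 := by
        rcases hx (n + h) (by omega) with h2 | h2 <;> rw [h2] <;> simp
      rw [h1, mul_one]
      exact hf _
    by_cases hb : Bad n
    · rw [hG]
      simp only [if_pos hb]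
      have h1 : ‖∑ h ∈ range L, v (o + h) * (f (n + h) * x (n + h))‖ ≤ L := by
        refine (norm_sum_le _ _).trans ?_
        calc ∑ h ∈ range L, ‖v (o + h) * (f (n + h) * x (n + h))‖ ≤ ∑ _h ∈ range L, (1 : ℝ) := by
              refine sum_le_sum fun h _ => ?_
              rw [norm_mul]
              exact mul_le_one₀ (hV1 v hv _) (norm_nonneg _) (hFn h)
          _ = L := by rw [sum_const, card_range, nsmul_eq_mul, mul_one]
      have : 0 ≤ ε / 2 * L := by positivity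
      linarith
    · rw [hG]
      simp only [if_neg hb, add_zero]
      obtain ⟨u, hu, hu2⟩ := hU3 v hv o
      have h1 : ‖Z f x (rnd u m L) m L n‖ ≤ η * L := by
        by_contra hc
        push Not at hc
        exact hb ⟨u, hu, by linarith⟩
      have e1 : ∑ h ∈ range L, v (o + h) * (f (n + h) * x (n + h)) = Z f x (rnd u m L) m L n +
          ∑ h ∈ range L, (v (o + h) - cf (rnd u m L) m h) * (f (n + h) * x (n + h)) := by
        unfold Z
        rw [← sum_add_distrib]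
        exact sum_congr rfl fun h _ => by ring
      have h2 : ‖∑ h ∈ range L, (v (o + h) - cf (rnd u m L) m h) * (f (n + h) * x (n + h))‖ ≤
          ε / 4 * L := by
        refine (norm_sum_le _ _).trans ?_
        calc ∑ h ∈ range L, ‖(v (o + h) - cf (rnd u m L) m h) * (f (n + h) * x (n + h))‖ ≤
              ∑ _h ∈ range L, ε / 4 := by
              refine sum_le_sum fun h hh => ?_
              rw [norm_mul]
              have k1 : ‖v (o + h) - cf (rnd u m L) m h‖ ≤ ε / 4 := by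
                have k2 := hu2 h (mem_range.1 hh)
                have k3 := rnd_near u hm1 (mem_range.1 hh)
                have k4 : v (o + h) - cf (rnd u m L) m h = (v (o + h) - u h) +
                    (u h - cf (rnd u m L) m h) := by ring
                rw [k4]
                refine (norm_add_le _ _).trans ?_
                have k5 : δ ≤ ε / 8 := min_le_right _ _
                linarith
              calc _ ≤ ε / 4 * 1 := mul_le_mul k1 (hFn h) (norm_nonneg _) (by positivity)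
                _ = ε / 4 := mul_one _
          _ = ε / 4 * L := by rw [sum_const, card_range, nsmul_eq_mul, mul_comm]
      rw [e1]
      refine (norm_add_le _ _).trans ?_
      have : η * L = ε / 4 * L := by rw [hη]
      linarith
  · filter_upwards [hbadev, hκ.mass] with N h1 h2
    have e1 : ∑ n ∈ Icc 1 N, κ N n * G n = (∑ n ∈ Icc 1 N, κ N n) * (ε / 2 * L) +
        (∑ n ∈ (Icc 1 N).filter Bad, κ N n) * L := by
      rw [sum_mul, sum_mul, sum_filter, ← sum_add_distrib]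
      refine sum_congr rfl fun n _ => ?_
      rw [hG]
      simp only
      split_ifs <;> ring
    rw [e1]
    have h3 : (∑ n ∈ Icc 1 N, κ N n) * (ε / 2 * L) ≤ 3 / 2 * (ε / 2 * L) :=
      mul_le_mul_of_nonneg_right h2 (by positivity)
    have h4 : (∑ n ∈ (Icc 1 N).filter Bad, κ N n) * L ≤ ε / 4 * L :=
      mul_le_mul_of_nonneg_right h1 hLR.le
    linarith

end Pool.Agent.Q163.NL
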