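import Pool.Agent.Q163.NL.Core

/-!
# Long windows: the sums of the problem
-/

set_option autoImplicit false

namespace Pool.Agent.Q163.NL

open Finset Filter Topology
open Pool.Agent.Q163.ND (Thin block_avg)

/-- The estimate of the question for `F` and the sequences of `V`. -/
def Disj (F : ℕ → ℂ) (V : Set (ℕ → ℂ)) : Prop := ∀ ε : ℝ, 0 < ε → ∃ H₀ : ℕ, ∀ N H : ℕ, H₀ ≤ H →
  H ≤ N → ∀ (v : ℕ → ℕ → ℂ) (o : ℕ → ℕ), (∀ n, v n ∈ V) →
    ∑ n ∈ Icc 1 N, 1 / (n : ℝ) * ‖∑ h ∈ Icc 1 H, v n (o n + h) * F (n + h)‖ ≤ ε * (H * Real.log N)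

/-- The same with `N → ∞` before `H → ∞`. -/
def DisjIter (F : ℕ → ℂ) (V : Set (ℕ → ℂ)) : Prop := ∀ ε : ℝ, 0 < ε → ∃ H₀ : ℕ, ∀ H : ℕ, H₀ ≤ H →
  ∀ᶠ N : ℕ in atTop, ∀ (v : ℕ → ℕ → ℂ) (o : ℕ → ℕ), (∀ n, v n ∈ V) →
    ∑ n ∈ Icc 1 N, 1 / (n : ℝ) * ‖∑ h ∈ Icc 1 H, v n (o n + h) * F (n + h)‖ ≤ ε * (H * Real.log N)

lemma harm_le (N : ℕ) : ∑ n ∈ Icc 1 N, 1 / (n : ℝ) ≤ 1 + Real.log N := by
  have h1 := harmonic_le_one_add_log N
  rw [harmonic_eq_sum_Icc] at h1
  push_cast at h1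
  simpa [one_div] using h1

/-- partial summation -/
lemma abel {G : ℕ → ℝ} {a b : ℝ} (ha : 0 ≤ a)
    (h : ∀ t, ∑ k ∈ Icc 1 t, G k ≤ a * t + b) (M : ℕ) (hM : 1 ≤ M) :
    ∑ k ∈ Icc 1 M, G k / k ≤ a * (2 + Real.log M) + b := by
  have h1 : ∀ M : ℕ, 1 ≤ M → ∑ k ∈ Icc 1 M, G k / k ≤ (∑ k ∈ Icc 1 M, G k) / M +
      a * ∑ k ∈ Icc 1 M, 1 / (k : ℝ) + b * (1 - 1 / M) := by
    intro M hM
    induction M, hM using Nat.le_induction with
    | base => simp; exact ha
    | succ M hM ih =>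
      have hMR : (0 : ℝ) < M := by exact_mod_cast hM
      rw [sum_Icc_succ_top (by omega), sum_Icc_succ_top (by omega), sum_Icc_succ_top (by omega)]
      have h2 := h M
      set S := ∑ k ∈ Icc 1 M, G k with hS
      have h3 : S * (1 / (M * (M + 1))) ≤ (a * M + b) * (1 / (M * (M + 1))) :=
        mul_le_mul_of_nonneg_right h2 (by positivity)
      have e1 : S / M = S / (M + 1) + S * (1 / (M * (M + 1))) := by field_simp
      have e2 : (a * M + b) * (1 / (M * (M + 1))) = a * (1 / (M + 1)) +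
          b * (1 / M - 1 / (M + 1)) := by field_simp; ring
      push_cast
      rw [add_div, mul_add]
      have e3 : b * (1 - 1 / ((M : ℝ) + 1)) = b * (1 - 1 / M) + b * (1 / M - 1 / (M + 1)) := by ring
      rw [e3]
      linarith
  have h2 := h1 M hM
  have hMR : (0 : ℝ) < M := by exact_mod_cast hM
  have h3 : (∑ k ∈ Icc 1 M, G k) / M ≤ a + b * (1 / M) := by
    rw [div_le_iff₀ hMR]
    refine (h M).trans (le_of_eq ?_)
    field_simp
  have h4 := mul_le_mul_of_nonneg_left (harm_le M) ha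
  have : b * (1 - 1 / (M : ℝ)) = b - b * (1 / M) := by ring
  linarith

/-- one long window -/
lemma window {F : ℕ → ℂ} (hF : ∀ n, ‖F n‖ ≤ 1) {V : Set (ℕ → ℂ)} (hV1 : ∀ v ∈ V, ∀ n, ‖v n‖ ≤ 1)
    {L : ℕ} {G : ℕ → ℝ}
    (hG : ∀ n, 1 ≤ n → ∀ v ∈ V, ∀ o : ℕ, ‖∑ h ∈ range L, v (o + h) * F (n + h)‖ ≤ G n)
    (n H : ℕ) {v : ℕ → ℂ} (hv : v ∈ V) (o : ℕ) :
    L * ‖∑ h ∈ Icc 1 H, v (o + h) * F (n + h)‖ ≤ ∑ j ∈ range H, G (n + 1 + j) + L * L := by
  have e1 : ∑ h ∈ Icc 1 H, v (o + h) * F (n + h) =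
      ∑ j ∈ range H, v (o + 1 + j) * F (n + 1 + j) := by
    rw [Pool.Agent.Q163.ND.sum_Icc_range]
    refine sum_congr rfl fun j _ => ?_
    rw [← add_assoc, ← add_assoc]
  have h1 := block_avg (fun j => v (o + 1 + j) * F (n + 1 + j)) 1 (fun j => by
    rw [norm_mul]
    exact mul_le_one₀ (hV1 v hv _) (norm_nonneg _) (hF _)) H L
  rw [mul_one] at h1
  rw [e1]
  refine h1.trans (add_le_add (sum_le_sum fun j _ => ?_) le_rfl)
  have h2 := hG (n + 1 + j) (by omega) v hv (o + 1 + j)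
  refine le_trans (le_of_eq ?_) h2
  congr 1
  refine sum_congr rfl fun i _ => ?_
  rw [← add_assoc, ← add_assoc]

/-- **The uniform estimate from natural averages.** -/
theorem disj {F : ℕ → ℂ} (hF : ∀ n, ‖F n‖ ≤ 1) {V : Set (ℕ → ℂ)} (hV1 : ∀ v ∈ V, ∀ n, ‖v n‖ ≤ 1)
    (hC : ∀ ε : ℝ, 0 < ε → ∃ L : ℕ, 1 ≤ L ∧ ∃ G : ℕ → ℝ, (∀ n, 0 ≤ G n) ∧
      (∀ n, G n ≤ (ε + 1) * L) ∧
      (∀ n, 1 ≤ n → ∀ v ∈ V, ∀ o : ℕ, ‖∑ h ∈ range L, v (o + h) * F (n + h)‖ ≤ G n) ∧
      ∀ᶠ N : ℕ in atTop, ∑ n ∈ Icc 1 N, 1 / (N : ℝ) * G n ≤ ε * L) : Disj F V := by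
  intro ε hε
  obtain ⟨L, hL, G, hG0, hG1, hG2, hG3⟩ := hC (ε / 10) (by positivity)
  set e := ε / 10 with he
  have he0 : 0 < e := by positivity
  have hLR : (0 : ℝ) < L := by exact_mod_cast hL
  obtain ⟨N0, hN0⟩ := eventually_atTop.1 hG3
  set b : ℝ := (e + 1) * L * N0 with hb
  have hb0 : 0 ≤ b := by positivity
  have hS : ∀ t, ∑ k ∈ Icc 1 t, G k ≤ e * L * t + b := by
    intro t
    by_cases ht : N0 ≤ t
    · by_cases ht1 : 1 ≤ t
      · have h1 := hN0 t ht
        rw [← mul_sum] at h1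
        have htR : (0 : ℝ) < t := by exact_mod_cast ht1
        have h2 : ∑ k ∈ Icc 1 t, G k ≤ e * L * t := by
          rw [one_div, inv_mul_le_iff₀ htR] at h1
          linarith
        linarith
      · have : t = 0 := by omega
        subst this
        simp
        exact hb0
    · push Not at ht
      have h1 : ∑ k ∈ Icc 1 t, G k ≤ ∑ _k ∈ Icc 1 t, (e + 1) * L := sum_le_sum fun k _ => hG1 k
      rw [sum_const, Nat.card_Icc, Nat.add_sub_cancel, nsmul_eq_mul] at h1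
      have h2 : (t : ℝ) * ((e + 1) * L) ≤ b := by
        rw [hb, mul_comm]
        exact mul_le_mul_of_nonneg_left (by exact_mod_cast ht.le) (by positivity)
      have h3 : 0 ≤ e * L * t := by positivity
      linarith
  obtain ⟨H0, hH0⟩ := exists_nat_ge ((2 * b / L + 2 * L) / e + Real.exp (2 * b / L / e) + 21)
  refine ⟨H0, fun N H hH hHN v o hv => ?_⟩
  have hHR : (2 * b / L + 2 * L) / e + Real.exp (2 * b / L / e) + 21 ≤ H := hH0.trans (by exact_mod_cast hH)
  have hp1 : 0 ≤ (2 * b / L + 2 * L) / e := by positivity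
  have hp2 := Real.exp_pos (2 * b / L / e)
  have hH21 : (21 : ℝ) ≤ H := by linarith
  have hHNR : (H : ℝ) ≤ N := by exact_mod_cast hHN
  have hN1 : 1 ≤ N := by
    have : (1 : ℝ) ≤ N := by linarith
    exact_mod_cast this
  have hH1 : 1 ≤ H := by
    have : (1 : ℝ) ≤ H := by linarith
    exact_mod_cast this
  set l := Real.log (N : ℝ) with hl
  have hl3 : 3 ≤ l := by
    rw [hl, Real.le_log_iff_exp_le (by linarith)]
    have h1 : Real.exp 3 ≤ 21 := by
      have h2 := Real.exp_one_lt_d9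
      have h3 : Real.exp 3 = Real.exp 1 ^ 3 := by
        rw [← Real.exp_nat_mul]
        norm_num
      rw [h3]
      have h4 := Real.exp_pos 1
      calc Real.exp 1 ^ 3 ≤ 2.7182818286 ^ 3 := pow_le_pow_left₀ h4.le h2.le 3
        _ ≤ 21 := by norm_num
    linarith
  have hlb : 2 * b / L ≤ e * l := by
    have h1 : 2 * b / L / e ≤ l := by
      rw [hl, Real.le_log_iff_exp_le (by linarith)]
      linarith
    rw [div_le_iff₀ he0] at h1
    linarith
  have hHb : 2 * b / L + 2 * L ≤ e * H := by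
    have h1 : (2 * b / L + 2 * L) / e ≤ H := by linarith
    rw [div_le_iff₀ he0] at h1
    linarith
  have hlogH : Real.log H ≤ l := Real.log_le_log (by linarith) hHNR
  -- the double sum
  have key : ∑ n ∈ Icc 1 N, 1 / (n : ℝ) * ∑ j ∈ range H, G (n + 1 + j) ≤
      (1 + l) * (2 * (e * L) * H + b) + 2 * H * ((e * L) * (3 + l) + b) := by
    have h1 : ∀ n ∈ Icc 1 N, 1 / (n : ℝ) * ∑ j ∈ range H, G (n + 1 + j) ≤
        1 / (n : ℝ) * (2 * (e * L) * H + b) +
          2 * ∑ j ∈ range H, G (n + 1 + j) / ((n + 1 + j : ℕ) : ℝ) := by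
      intro n hn
      rw [mem_Icc] at hn
      have hnR : (0 : ℝ) < n := by exact_mod_cast hn.1
      have hpos2 : 0 ≤ 2 * ∑ j ∈ range H, G (n + 1 + j) / ((n + 1 + j : ℕ) : ℝ) :=
        mul_nonneg (by norm_num) (sum_nonneg fun j _ => div_nonneg (hG0 _) (Nat.cast_nonneg _))
      have hpos1 : 0 ≤ 1 / (n : ℝ) * (2 * (e * L) * H + b) := by positivity
      by_cases hnH : n ≤ H
      · have h2 : ∑ j ∈ range H, G (n + 1 + j) ≤ ∑ k ∈ Icc 1 (2 * H), G k := by
          have e1 : ∑ j ∈ range H, G (n + 1 + j) = ∑ k ∈ (range H).image (fun j => n + 1 + j), G k := by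
            rw [sum_image]
            intro x _ y _ hxy
            simp only at hxy
            omega
          rw [e1]
          refine sum_le_sum_of_subset_of_nonneg ?_ fun k _ _ => hG0 k
          intro k hk
          rw [mem_image] at hk
          obtain ⟨j, hj, rfl⟩ := hk
          rw [mem_range] at hj
          rw [mem_Icc]
          omega
        have h3 := h2.trans (hS (2 * H))
        push_cast at h3
        have h4 : 1 / (n : ℝ) * ∑ j ∈ range H, G (n + 1 + j) ≤ 1 / (n : ℝ) * (2 * (e * L) * H + b) :=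
          mul_le_mul_of_nonneg_left (by linarith) (by positivity)
        linarith
      · push Not at hnH
        have h2 : 1 / (n : ℝ) * ∑ j ∈ range H, G (n + 1 + j) ≤
            2 * ∑ j ∈ range H, G (n + 1 + j) / ((n + 1 + j : ℕ) : ℝ) := by
          rw [mul_sum, mul_sum]
          refine sum_le_sum fun j hj => ?_
          rw [mem_range] at hj
          have h3 : ((n + 1 + j : ℕ) : ℝ) ≤ 2 * n := by
            have : n + 1 + j ≤ 2 * n := by omega
            exact_mod_cast this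
          have h4 : (0 : ℝ) < ((n + 1 + j : ℕ) : ℝ) := by positivity
          rw [mul_div_assoc', div_mul_eq_mul_div, one_mul, div_le_div_iff₀ hnR h4]
          nlinarith [hG0 (n + 1 + j), mul_le_mul_of_nonneg_left h3 (hG0 (n + 1 + j))]
        linarith
    refine (sum_le_sum h1).trans ?_
    rw [sum_add_distrib, ← sum_mul, ← mul_sum, sum_comm]
    have h2 : ∀ j ∈ range H, ∑ n ∈ Icc 1 N, G (n + 1 + j) / ((n + 1 + j : ℕ) : ℝ) ≤
        (e * L) * (3 + l) + b := by
      intro j hj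
      rw [mem_range] at hj
      have e1 : ∑ n ∈ Icc 1 N, G (n + 1 + j) / ((n + 1 + j : ℕ) : ℝ) =
          ∑ k ∈ (Icc 1 N).image (fun n => n + 1 + j), G k / (k : ℝ) := by
        rw [sum_image]
        intro x _ y _ hxy
        simp only at hxy
        omega
      have h3 : ∑ n ∈ Icc 1 N, G (n + 1 + j) / ((n + 1 + j : ℕ) : ℝ) ≤
          ∑ k ∈ Icc 1 (2 * N), G k / (k : ℝ) := by
        rw [e1]
        refine sum_le_sum_of_subset_of_nonneg ?_ fun k _ _ => div_nonneg (hG0 k) (Nat.cast_nonneg _)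
        intro k hk
        rw [mem_image] at hk
        obtain ⟨n, hn, rfl⟩ := hk
        rw [mem_Icc] at hn
        rw [mem_Icc]
        omega
      refine (h3.trans (abel (by positivity) hS (2 * N) (by omega))).trans ?_
      have h4 : Real.log ((2 * N : ℕ) : ℝ) ≤ 1 + l := by
        push_cast
        rw [Real.log_mul (by norm_num) (by linarith)]
        have := Real.log_two_lt_d9
        linarith
      have h5 : e * L * (2 + Real.log ((2 * N : ℕ) : ℝ)) ≤ e * L * (3 + l) :=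
        mul_le_mul_of_nonneg_left (by linarith) (by positivity)
      linarith
    have h3 := sum_le_sum h2
    rw [sum_const, card_range, nsmul_eq_mul] at h3
    have h4 : (∑ n ∈ Icc 1 N, 1 / (n : ℝ)) * (2 * (e * L) * H + b) ≤
        (1 + l) * (2 * (e * L) * H + b) :=
      mul_le_mul_of_nonneg_right (harm_le N) (by positivity)
    linarith
  have h5 : L * ∑ n ∈ Icc 1 N, 1 / (n : ℝ) * ‖∑ h ∈ Icc 1 H, v n (o n + h) * F (n + h)‖ ≤
      (1 + l) * (2 * (e * L) * H + b) + 2 * H * ((e * L) * (3 + l) + b) + (1 + l) * (L * L) := by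
    have h6 : ∀ n ∈ Icc 1 N, (L : ℝ) * (1 / (n : ℝ) * ‖∑ h ∈ Icc 1 H, v n (o n + h) * F (n + h)‖) ≤
        1 / (n : ℝ) * ∑ j ∈ range H, G (n + 1 + j) + 1 / (n : ℝ) * (L * L) := by
      intro n _
      have h7 := window hF hV1 hG2 n H (hv n) (o n)
      have h8 := mul_le_mul_of_nonneg_left h7 (by positivity : (0 : ℝ) ≤ 1 / (n : ℝ))
      rw [mul_add] at h8
      calc _ = 1 / (n : ℝ) * (L * ‖∑ h ∈ Icc 1 H, v n (o n + h) * F (n + h)‖) := by ring
        _ ≤ _ := h8
    rw [mul_sum]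
    refine (sum_le_sum h6).trans ?_
    rw [sum_add_distrib, ← sum_mul]
    have h9 := mul_le_mul_of_nonneg_right (harm_le N) (by positivity : (0 : ℝ) ≤ L * L)
    linarith
  have h6 : (1 + l) * (2 * (e * L) * H + b) + 2 * H * ((e * L) * (3 + l) + b) + (1 + l) * (L * L) ≤
      L * (ε * (H * l)) := by
    have hε10 : ε = 10 * e := by rw [he]; ring
    have a1 : b = L * (b / L) := by field_simp
    set β := b / L with hβ
    have hβ0 : 0 ≤ β := by positivity
    have a2 : 2 * b / L = 2 * β := by rw [hβ]; ring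
    rw [a2] at hlb hHb
    rw [a1, hε10]
    have a3 : (1 + l) * (2 * (e * L) * H + L * β) + 2 * H * ((e * L) * (3 + l) + L * β) +
        (1 + l) * (L * L) = L * ((1 + l) * (2 * e * H + β) + 2 * H * (e * (3 + l) + β) +
        (1 + l) * L) := by ring
    rw [a3]
    refine mul_le_mul_of_nonneg_left ?_ hLR.le
    have a4 : (1 + l) * (2 * e * H + β) ≤ 2 * l * (2 * e * H + β) :=
      mul_le_mul_of_nonneg_right (by linarith) (by positivity)
    have a5 : 2 * (H : ℝ) * (e * (3 + l) + β) ≤ 2 * H * (e * (2 * l) + β) :=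
      mul_le_mul_of_nonneg_left (by nlinarith) (by positivity)
    have a6 : (1 + l) * (L : ℝ) ≤ 2 * l * L := mul_le_mul_of_nonneg_right (by linarith) hLR.le
    have a7 : l * (2 * β + 2 * L) ≤ l * (e * H) := mul_le_mul_of_nonneg_left hHb (by linarith)
    have a8 : (H : ℝ) * (2 * β) ≤ H * (e * l) := mul_le_mul_of_nonneg_left hlb (by linarith)
    nlinarith
  exact le_of_mul_le_mul_left (h5.trans h6) hLR

/-- **The estimate with iterated limits from logarithmic averages.** -/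
theorem disjIter {F : ℕ → ℂ} (hF : ∀ n, ‖F n‖ ≤ 1) {V : Set (ℕ → ℂ)}
    (hV1 : ∀ v ∈ V, ∀ n, ‖v n‖ ≤ 1)
    (hC : ∀ ε : ℝ, 0 < ε → ∃ L : ℕ, 1 ≤ L ∧ ∃ G : ℕ → ℝ, (∀ n, 0 ≤ G n) ∧
      (∀ n, G n ≤ (ε + 1) * L) ∧
      (∀ n, 1 ≤ n → ∀ v ∈ V, ∀ o : ℕ, ‖∑ h ∈ range L, v (o + h) * F (n + h)‖ ≤ G n) ∧
      ∀ᶠ N : ℕ in atTop, ∑ n ∈ Icc 1 N, 1 / (n * Real.log N) * G n ≤ ε * L) : DisjIter F V := by
  intro ε hε
  obtain ⟨L, hL, G, hG0, hG1, hG2, hG3⟩ := hC (ε / 6) (by positivity)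
  set e := ε / 6 with he
  have he0 : 0 < e := by positivity
  have hLR : (0 : ℝ) < L := by exact_mod_cast hL
  obtain ⟨H0, hH0⟩ := exists_nat_ge (L / e + 1)
  refine ⟨H0, fun H hH => ?_⟩
  have hHR : L / e + 1 ≤ H := hH0.trans (by exact_mod_cast hH)
  have hH1 : (1 : ℝ) ≤ H := by
    have : 0 ≤ L / e := by positivity
    linarith
  have hHL : (L : ℝ) ≤ e * H := by
    have h1 : L / e ≤ H := by linarith
    rw [div_le_iff₀ he0] at h1
    linarith
  obtain ⟨N0, hN0⟩ := eventually_atTop.1 hG3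
  set B : ℝ := (e + 1) * L with hB
  have hB0 : 0 ≤ B := by positivity
  have hlog : Tendsto (fun N : ℕ => Real.log (N : ℝ)) atTop atTop :=
    Real.tendsto_log_atTop.comp tendsto_natCast_atTop_atTop
  filter_upwards [eventually_ge_atTop (N0 + H + 2), hlog.eventually_ge_atTop
    (2 + 2 * B * H / L / e)] with N hN hNl v o hv
  set l := Real.log (N : ℝ) with hl
  have hBl : 2 * B * H / L ≤ e * l := by
    have h1 : 2 * B * H / L / e ≤ l := by linarith
    rw [div_le_iff₀ he0] at h1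
    linarith
  have hl2 : 2 ≤ l := by
    have : 0 ≤ 2 * B * H / L / e := by positivity
    linarith
  have hNR : (0 : ℝ) < N := by
    have : 0 < N := by omega
    exact_mod_cast this
  have hT : ∑ k ∈ Icc 1 (2 * N), G k / k ≤ e * L * (1 + l) := by
    have h1 := hN0 (2 * N) (by omega)
    have h2 : (0 : ℝ) < Real.log ((2 * N : ℕ) : ℝ) := Real.log_pos (by
      have : 1 < 2 * N := by omega
      exact_mod_cast this)
    have e1 : ∑ k ∈ Icc 1 (2 * N), 1 / (k * Real.log ((2 * N : ℕ) : ℝ)) * G k =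
        (∑ k ∈ Icc 1 (2 * N), G k / k) / Real.log ((2 * N : ℕ) : ℝ) := by
      rw [sum_div]
      refine sum_congr rfl fun k hk => ?_
      have : (0 : ℝ) < k := by exact_mod_cast (mem_Icc.1 hk).1
      field_simp
    rw [e1, div_le_iff₀ h2] at h1
    have h4 : Real.log ((2 * N : ℕ) : ℝ) ≤ 1 + l := by
      push_cast
      rw [Real.log_mul (by norm_num) hNR.ne']
      have := Real.log_two_lt_d9
      linarith
    exact h1.trans (mul_le_mul_of_nonneg_left h4 (by positivity))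
  have hsq : ∑ n ∈ Icc 1 N, 1 / (n : ℝ) ^ 2 ≤ 2 := by
    have h1 : ∀ M : ℕ, 1 ≤ M → ∑ n ∈ Icc 1 M, 1 / (n : ℝ) ^ 2 ≤ 2 - 1 / (M : ℝ) := by
      intro M hM
      induction M, hM using Nat.le_induction with
      | base => simp; norm_num
      | succ M hM ih =>
        rw [sum_Icc_succ_top (by omega)]
        have hMR : (0 : ℝ) < M := by exact_mod_cast hM
        have h2 : 1 / ((M + 1 : ℕ) : ℝ) ^ 2 ≤ 1 / M - 1 / ((M + 1 : ℕ) : ℝ) := by
          push_cast
          rw [div_sub_div _ _ (by positivity) (by positivity), div_le_div_iff₀ (by positivity)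
            (by positivity)]
          nlinarith
        linarith
    have h2 := h1 N (by omega)
    have : 0 ≤ 1 / (N : ℝ) := by positivity
    linarith
  have key : ∀ j ∈ range H, ∑ n ∈ Icc 1 N, 1 / (n : ℝ) * G (n + 1 + j) ≤
      e * L * (1 + l) + 2 * B * H := by
    intro j hj
    rw [mem_range] at hj
    have h1 : ∀ n ∈ Icc 1 N, 1 / (n : ℝ) * G (n + 1 + j) ≤
        G (n + 1 + j) / ((n + 1 + j : ℕ) : ℝ) + B * H * (1 / (n : ℝ) ^ 2) := by
      intro n hn
      have hnR : (0 : ℝ) < n := by exact_mod_cast (mem_Icc.1 hn).1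
      have h2 : (0 : ℝ) < ((n + 1 + j : ℕ) : ℝ) := by positivity
      have h3 : 1 / (n : ℝ) - 1 / ((n + 1 + j : ℕ) : ℝ) ≤ H * (1 / (n : ℝ) ^ 2) := by
        have h4 : 1 / (n : ℝ) - 1 / ((n + 1 + j : ℕ) : ℝ) =
            (1 + j) / (n * ((n + 1 + j : ℕ) : ℝ)) := by
          push_cast
          field_simp
          ring
        rw [h4, mul_one_div]
        have h5 : (1 + j : ℝ) ≤ H := by
          have : 1 + j ≤ H := by omega
          exact_mod_cast this
        have h6 : (n : ℝ) ^ 2 ≤ n * ((n + 1 + j : ℕ) : ℝ) := by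
          rw [sq]
          refine mul_le_mul_of_nonneg_left ?_ hnR.le
          push_cast
          have : (0 : ℝ) ≤ j := Nat.cast_nonneg _
          linarith
        exact div_le_div₀ (by linarith) h5 (by positivity) h6
      have h7 : (1 / (n : ℝ) - 1 / ((n + 1 + j : ℕ) : ℝ)) * G (n + 1 + j) ≤
          B * H * (1 / (n : ℝ) ^ 2) := by
        calc (1 / (n : ℝ) - 1 / ((n + 1 + j : ℕ) : ℝ)) * G (n + 1 + j) ≤
              H * (1 / (n : ℝ) ^ 2) * G (n + 1 + j) := mul_le_mul_of_nonneg_right h3 (hG0 _)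
          _ ≤ H * (1 / (n : ℝ) ^ 2) * B := mul_le_mul_of_nonneg_left (hG1 _) (by positivity)
          _ = B * H * (1 / (n : ℝ) ^ 2) := by ring
      have h8 : 1 / (n : ℝ) * G (n + 1 + j) = G (n + 1 + j) / ((n + 1 + j : ℕ) : ℝ) +
          (1 / (n : ℝ) - 1 / ((n + 1 + j : ℕ) : ℝ)) * G (n + 1 + j) := by ring
      rw [h8]
      linarith
    refine (sum_le_sum h1).trans ?_
    rw [sum_add_distrib, ← mul_sum]
    have e1 : ∑ n ∈ Icc 1 N, G (n + 1 + j) / ((n + 1 + j : ℕ) : ℝ) =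
        ∑ k ∈ (Icc 1 N).image (fun n => n + 1 + j), G k / (k : ℝ) := by
      rw [sum_image]
      intro x _ y _ hxy
      simp only at hxy
      omega
    have h3 : ∑ n ∈ Icc 1 N, G (n + 1 + j) / ((n + 1 + j : ℕ) : ℝ) ≤
        ∑ k ∈ Icc 1 (2 * N), G k / (k : ℝ) := by
      rw [e1]
      refine sum_le_sum_of_subset_of_nonneg ?_ fun k _ _ => div_nonneg (hG0 k) (Nat.cast_nonneg _)
      intro k hk
      rw [mem_image] at hk
      obtain ⟨n, hn, rfl⟩ := hk
      rw [mem_Icc] at hn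
      rw [mem_Icc]
      omega
    have h4 : B * H * ∑ n ∈ Icc 1 N, 1 / (n : ℝ) ^ 2 ≤ B * H * 2 :=
      mul_le_mul_of_nonneg_left hsq (by positivity)
    linarith
  have h5 : L * ∑ n ∈ Icc 1 N, 1 / (n : ℝ) * ‖∑ h ∈ Icc 1 H, v n (o n + h) * F (n + h)‖ ≤
      H * (e * L * (1 + l) + 2 * B * H) + (1 + l) * (L * L) := by
    have h6 : ∀ n ∈ Icc 1 N, (L : ℝ) * (1 / (n : ℝ) * ‖∑ h ∈ Icc 1 H, v n (o n + h) * F (n + h)‖) ≤
        ∑ j ∈ range H, 1 / (n : ℝ) * G (n + 1 + j) + 1 / (n : ℝ) * (L * L) := by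
      intro n _
      have h7 := window hF hV1 hG2 n H (hv n) (o n)
      have h8 := mul_le_mul_of_nonneg_left h7 (by positivity : (0 : ℝ) ≤ 1 / (n : ℝ))
      rw [mul_add, mul_sum] at h8
      calc _ = 1 / (n : ℝ) * (L * ‖∑ h ∈ Icc 1 H, v n (o n + h) * F (n + h)‖) := by ring
        _ ≤ _ := h8
    rw [mul_sum]
    refine (sum_le_sum h6).trans ?_
    rw [sum_add_distrib, ← sum_mul, sum_comm]
    have h9 := mul_le_mul_of_nonneg_right (harm_le N) (by positivity : (0 : ℝ) ≤ L * L)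
    have h10 := sum_le_sum key
    rw [sum_const, card_range, nsmul_eq_mul] at h10
    linarith
  have h6 : H * (e * L * (1 + l) + 2 * B * H) + (1 + l) * (L * L) ≤ L * (ε * (H * l)) := by
    have hε6 : ε = 6 * e := by rw [he]; ring
    have a1 : 2 * B * H = L * (2 * B * H / L) := by field_simp
    set β := 2 * B * H / L with hβ
    rw [a1, hε6]
    have a3 : (H : ℝ) * (e * L * (1 + l) + L * β) + (1 + l) * (L * L) =
        L * (H * (e * (1 + l) + β) + (1 + l) * L) := by ring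
    rw [a3]
    refine mul_le_mul_of_nonneg_left ?_ hLR.le
    have a4 : (H : ℝ) * (e * (1 + l) + β) ≤ H * (e * (2 * l) + e * l) :=
      mul_le_mul_of_nonneg_left (by nlinarith) (by linarith)
    have a5 : (1 + l) * (L : ℝ) ≤ 2 * l * (e * H) :=
      mul_le_mul (by linarith) hHL hLR.le (by linarith)
    have a6 : (0 : ℝ) ≤ H * (e * l) := by positivity
    linarith
  exact le_of_mul_le_mul_left (h5.trans h6) hLR

end Pool.Agent.Q163.NL
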