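import Pool.Agent.Q163.NL.Pol
import Pool.Agent.Q163.ND.Ext

/-!
# Nilsequences of unipotent groups form thin sets
-/

set_option autoImplicit false

namespace Pool.Agent.Q163.NL

open Finset Filter Topology
open Pool.Agent.Q163.ND (Thin)

/-- real upper triangular matrices with ones on the diagonal -/
def Unip {d : ℕ} (A : Matrix (Fin d) (Fin d) ℝ) : Prop :=
  ∀ i j, j ≤ i → A i j = if i = j then 1 else 0

/-- those with integral entries -/
def UnipInt {d : ℕ} (A : Matrix (Fin d) (Fin d) ℝ) : Prop := Unip A ∧ ∀ i j, ∃ z : ℤ, A i j = z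

/-- continuous functions bounded by one on the quotient of the unipotent group by its lattice of
integral matrices -/
structure NilFun (d : ℕ) (Φ : Matrix (Fin d) (Fin d) ℝ → ℂ) : Prop where
  cont : ContinuousOn Φ {A | Unip A}
  inv : ∀ A γ, Unip A → UnipInt γ → Φ (A * γ) = Φ A
  norm : ∀ A, Unip A → ‖Φ A‖ ≤ 1

/-- the values along the orbits of all the nilrotations, from all the points -/
def NilSeq (d : ℕ) (Φ : Matrix (Fin d) (Fin d) ℝ → ℂ) : Set (ℕ → ℂ) :=
  {v | ∃ g y, Unip g ∧ Unip y ∧ v = fun n => Φ (g ^ n * y)}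

section
variable {d : ℕ}

lemma unip_mul {A B : Matrix (Fin d) (Fin d) ℝ} (hA : Unip A) (hB : Unip B) : Unip (A * B) := by
  intro i j hij
  rw [Matrix.mul_apply, sum_eq_single i]
  · rw [hA i i le_rfl, if_pos rfl, one_mul, hB i j hij]
  · intro l _ hl
    rcases lt_or_gt_of_ne hl with h | h
    · rw [hA i l h.le, if_neg (ne_of_gt h), zero_mul]
    · rw [hB l j (hij.trans h.le), if_neg (ne_of_gt (lt_of_le_of_lt hij h)), mul_zero]
  · intro h
    exact absurd (mem_univ i) h

lemma unip_one : Unip (1 : Matrix (Fin d) (Fin d) ℝ) := by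
  intro i j _
  rw [Matrix.one_apply]

lemma unip_pow {A : Matrix (Fin d) (Fin d) ℝ} (hA : Unip A) (n : ℕ) : Unip (A ^ n) := by
  induction n with
  | zero => rw [pow_zero]; exact unip_one
  | succ n ih => rw [pow_succ]; exact unip_mul ih hA

lemma pol_entries {g : Matrix (Fin d) (Fin d) ℝ} (hg : Unip g) (y : Matrix (Fin d) (Fin d) ℝ) :
    ∀ t : ℕ, ∀ i : Fin d, d ≤ (i : ℕ) + 1 + t → ∀ j, IsP t fun n => (g ^ n * y) i j := by
  have hdiff : ∀ (i j : Fin d) (n : ℕ), (g ^ (n + 1) * y) i j - (g ^ n * y) i j =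
      ∑ l ∈ Ioi i, g i l * (g ^ n * y) l j := by
    intro i j n
    rw [pow_succ', Matrix.mul_assoc, Matrix.mul_apply]
    have h1 : ∑ l, g i l * (g ^ n * y) l j = ∑ l ∈ Ici i, g i l * (g ^ n * y) l j := by
      refine (sum_subset (subset_univ _) fun l _ hl => ?_).symm
      rw [mem_Ici, not_le] at hl
      rw [hg i l hl.le, if_neg (ne_of_gt hl), zero_mul]
    have h2 : Ici i = insert i (Ioi i) := (Finset.Ioi_insert i).symm
    rw [h1, h2, sum_insert (by simp), hg i i le_rfl, if_pos rfl, one_mul, add_sub_cancel_left]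
  intro t
  induction t with
  | zero =>
    intro i hi j
    have h1 : Ioi i = ∅ := by
      ext l
      rw [mem_Ioi]
      constructor
      · intro h
        have := Fin.lt_def.1 h
        have := l.2
        omega
      · intro h
        exact absurd h (notMem_empty _)
    have h2 : ∀ n, (g ^ n * y) i j = (g ^ 0 * y) i j := by
      intro n
      induction n with
      | zero => rfl
      | succ n ih =>
        have h3 := hdiff i j n
        rw [h1, sum_empty] at h3
        linarith
    exact isP_const h2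
  | succ t ih =>
    intro i hi j
    refine isP_up ?_
    have h1 : (fun n => (g ^ (n + 1) * y) i j - (g ^ n * y) i j) =
        ∑ l ∈ Ioi i, fun n => g i l * (g ^ n * y) l j := by
      funext n
      rw [hdiff, Finset.sum_apply]
    rw [h1]
    refine IsP.sum _ fun l hl => ?_
    have h2 := Fin.lt_def.1 (mem_Ioi.1 hl)
    exact (ih l (by omega) j).smul (g i l)

/-- uniform continuity on a box -/
lemma unif {Φ : Matrix (Fin d) (Fin d) ℝ → ℂ} (hΦ : NilFun d Φ) (δ : ℝ) (hδ : 0 < δ) :
    ∃ ρ : ℝ, 0 < ρ ∧ ρ ≤ 1 ∧ ∀ A B : Matrix (Fin d) (Fin d) ℝ, Unip A → Unip B →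
      (∀ i j, |A i j| ≤ 2) → (∀ i j, |B i j| ≤ 2) → (∀ i j, |A i j - B i j| < ρ) →
      ‖Φ A - Φ B‖ ≤ δ := by
  set Kc : Set (Fin d → Fin d → ℝ) := {A | Unip (Matrix.of A) ∧ ∀ i j, |A i j| ≤ 2} with hKc
  have hcomp : IsCompact Kc := by
    have h1 : IsCompact (Set.pi Set.univ fun _ : Fin d => Set.pi Set.univ fun _ : Fin d =>
        Set.Icc (-2 : ℝ) 2) :=
      isCompact_univ_pi fun _ => isCompact_univ_pi fun _ => isCompact_Icc
    refine h1.of_isClosed_subset ?_ ?_
    · have e1 : Kc = (⋂ i : Fin d, ⋂ j : Fin d, ⋂ _ : j ≤ i,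
          {A : Fin d → Fin d → ℝ | A i j = if i = j then 1 else 0}) ∩
          ⋂ i : Fin d, ⋂ j : Fin d, {A : Fin d → Fin d → ℝ | |A i j| ≤ 2} := by
        ext A
        simp only [hKc, Set.mem_ofPred_eq, Set.mem_inter_iff, Set.mem_iInter, Unip, Matrix.of_apply]
      rw [e1]
      refine IsClosed.inter ?_ ?_
      · refine isClosed_iInter fun i => isClosed_iInter fun j => isClosed_iInter fun _ => ?_
        exact isClosed_eq (by fun_prop) continuous_const
      · refine isClosed_iInter fun i => isClosed_iInter fun j => ?_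
        exact isClosed_le (by fun_prop) continuous_const
    · intro A hA
      rw [Set.mem_univ_pi]
      intro i
      rw [Set.mem_univ_pi]
      intro j
      exact abs_le.1 (hA.2 i j)
  have hcont : ContinuousOn (fun A : Fin d → Fin d → ℝ => Φ (Matrix.of A)) Kc := by
    have h1 : Continuous (fun A : Fin d → Fin d → ℝ => (Matrix.of A : Matrix (Fin d) (Fin d) ℝ)) :=
      continuous_id
    exact hΦ.cont.comp h1.continuousOn fun A hA => hA.1
  have huc := hcomp.uniformContinuousOn_of_continuous hcont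
  rw [Metric.uniformContinuousOn_iff] at huc
  obtain ⟨ρ, hρ, h2⟩ := huc δ hδ
  refine ⟨min ρ 1, by positivity, min_le_right _ _, fun A B hA hB hA2 hB2 hAB => ?_⟩
  have h3 := h2 (fun i j => A i j) ⟨hA, hA2⟩ (fun i j => B i j) ⟨hB, hB2⟩ (by
    rw [dist_pi_lt_iff hρ]
    intro i
    rw [dist_pi_lt_iff hρ]
    intro j
    rw [Real.dist_eq]
    exact (hAB i j).trans_le (min_le_left _ _))
  rw [dist_eq_norm] at h3
  exact h3.le

lemma growth (C : ℝ) (E m : ℕ) (δ : ℝ) (hδ : 0 < δ) :
    ∀ᶠ n : ℕ in atTop, (C * (n : ℝ) ^ E) ^ m ≤ Real.exp (δ * n) := by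
  have h1 : Tendsto (fun y : ℝ => Real.exp (δ * y) / y ^ (E * m)) atTop atTop := by
    have h2 := (tendsto_exp_mul_div_rpow_atTop ((E * m : ℕ) : ℝ) δ hδ)
    refine h2.congr' ?_
    filter_upwards [eventually_gt_atTop 0] with y hy
    rw [Real.rpow_natCast]
  have h3 := (h1.comp tendsto_natCast_atTop_atTop).eventually_ge_atTop (C ^ m)
  filter_upwards [h3, eventually_ge_atTop 1] with n h4 h5
  have hn : (0 : ℝ) < n := by exact_mod_cast h5
  simp only [Function.comp] at h4
  rw [le_div_iff₀ (by positivity)] at h4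
  rw [mul_pow, ← pow_mul]
  exact h4

/-- the matrices of the net -/
noncomputable def netM (d K T : ℕ) (b : Fin d → Fin d → Fin (K + 1) → Fin T) (h : ℕ) :
    Matrix (Fin d) (Fin d) ℝ :=
  Matrix.of fun i j => if i < j then ∑ k : Fin (K + 1), (b i j k : ℝ) / T * (h.choose k : ℝ)
    else if i = j then 1 else 0

lemma netM_unip (d K T : ℕ) (b : Fin d → Fin d → Fin (K + 1) → Fin T) (h : ℕ) :
    Unip (netM d K T b h) := by
  intro i j hij
  unfold netM
  rw [Matrix.of_apply, if_neg (not_lt.2 hij)]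

lemma choose_bound {h L k K : ℕ} (hh : h < L) (hk : k ≤ K) : (h.choose k : ℝ) ≤ (L : ℝ) ^ K := by
  have h1 : h.choose k ≤ L ^ K := by
    calc h.choose k ≤ h ^ k := Nat.choose_le_pow h k
      _ ≤ L ^ k := Nat.pow_le_pow_left hh.le k
      _ ≤ L ^ K := Nat.pow_le_pow_right (by omega) hk
  exact_mod_cast h1

/-- **Nilsequences form thin sets.** -/
theorem nil_thin {Φ : Matrix (Fin d) (Fin d) ℝ → ℂ} (hΦ : NilFun d Φ) : Thin (NilSeq d Φ) := by
  classical
  intro δ hδ
  obtain ⟨ρ, hρ, hρ1, hunif⟩ := unif hΦ δ hδ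
  set K : ℕ := d * d with hK
  -- the number of the steps of the net
  set C1 : ℝ := (K + 3) * (d + 1) with hC1
  have hC10 : 0 < C1 := by positivity
  set C2 : ℝ := (d + 1) * (K + 1) * C1 ^ d / ρ + 2 with hC2
  have hC20 : 0 < C2 := by positivity
  set E : ℕ := K + K * d with hE
  filter_upwards [growth C2 E ((K + 1) * (d * d)) δ hδ, eventually_ge_atTop 1] with L hgrow hL
  have hLR : (1 : ℝ) ≤ L := by exact_mod_cast hL
  have hLK : (1 : ℝ) ≤ (L : ℝ) ^ K := one_le_pow₀ hLR
  set B : ℝ := (K + 1) * (L : ℝ) ^ K + 1 with hB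
  have hB0 : 0 ≤ B := by positivity
  set Γ : ℝ := (1 + B + B * d) ^ d with hΓ
  have hΓ0 : 0 < Γ := by positivity
  have hΓ1 : Γ ≤ C1 ^ d * (L : ℝ) ^ (K * d) := by
    rw [hΓ, pow_mul, ← mul_pow]
    refine pow_le_pow_left₀ (by positivity) ?_ d
    rw [hC1, hB]
    have hd0 : (0 : ℝ) ≤ d := Nat.cast_nonneg _
    have hK0 : (0 : ℝ) ≤ K := Nat.cast_nonneg _
    have h1 : 1 + ((K + 1) * (L : ℝ) ^ K + 1) ≤ (K + 3) * (L : ℝ) ^ K := by linarith
    have h2 : ((K + 1) * (L : ℝ) ^ K + 1) ≤ (K + 3) * (L : ℝ) ^ K := by linarith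
    have h3 : ((K + 1) * (L : ℝ) ^ K + 1) * d ≤ (K + 3) * (L : ℝ) ^ K * d :=
      mul_le_mul_of_nonneg_right h2 hd0
    calc 1 + ((K + 1) * (L : ℝ) ^ K + 1) + ((K + 1) * (L : ℝ) ^ K + 1) * d ≤
          (K + 3) * (L : ℝ) ^ K + (K + 3) * (L : ℝ) ^ K * d := add_le_add h1 h3
      _ = (K + 3) * (d + 1) * (L : ℝ) ^ K := by ring
  set T : ℕ := ⌈(d + 1) * ((K + 1) * (L : ℝ) ^ K) * Γ / ρ⌉₊ + 1 with hT
  have hT0 : (0 : ℝ) < T := by
    rw [hT]
    positivity
  have hT1 : (d + 1) * ((K + 1) * (L : ℝ) ^ K) * Γ / ρ < T := by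
    rw [hT]
    push_cast
    have := Nat.le_ceil ((d + 1) * ((K + 1) * (L : ℝ) ^ K) * Γ / ρ)
    linarith
  have hT2 : (T : ℝ) ≤ C2 * (L : ℝ) ^ E := by
    rw [hT]
    push_cast
    have h1 := (Nat.ceil_lt_add_one (by positivity :
      0 ≤ (d + 1) * ((K + 1) * (L : ℝ) ^ K) * Γ / ρ)).le
    have h2 : (d + 1) * ((K + 1) * (L : ℝ) ^ K) * Γ / ρ ≤
        (d + 1) * (K + 1) * C1 ^ d / ρ * (L : ℝ) ^ E := by
      rw [hE, pow_add, div_mul_eq_mul_div]
      refine div_le_div_of_nonneg_right ?_ hρ.le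
      calc (d + 1) * ((K + 1) * (L : ℝ) ^ K) * Γ ≤
            (d + 1) * ((K + 1) * (L : ℝ) ^ K) * (C1 ^ d * (L : ℝ) ^ (K * d)) :=
            mul_le_mul_of_nonneg_left hΓ1 (by positivity)
        _ = (d + 1) * (K + 1) * C1 ^ d * ((L : ℝ) ^ K * (L : ℝ) ^ (K * d)) := by ring
    have h3 : (1 : ℝ) ≤ (L : ℝ) ^ E := one_le_pow₀ hLR
    have h4 : C2 * (L : ℝ) ^ E = (d + 1) * (K + 1) * C1 ^ d / ρ * (L : ℝ) ^ E +
        2 * (L : ℝ) ^ E := by
      rw [hC2]
      ring
    linarith
  -- the net
  set G : (Fin d → Fin d → Fin (K + 1) → Fin T) → (ℕ → ℂ) := fun b h => Φ (netM d K T b h) with hG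
  refine ⟨univ.image G, ?_, ?_, ?_⟩
  · have h1 : ((univ.image G).card : ℝ) ≤ (T : ℝ) ^ ((K + 1) * (d * d)) := by
      have h2 : (univ.image G).card ≤ T ^ ((K + 1) * (d * d)) := by
        refine card_image_le.trans (le_of_eq ?_)
        rw [card_univ, Fintype.card_fun, Fintype.card_fun, Fintype.card_fun, Fintype.card_fin,
          Fintype.card_fin, Fintype.card_fin, ← pow_mul, ← pow_mul]
      exact_mod_cast h2
    exact h1.trans (le_trans (pow_le_pow_left₀ hT0.le hT2 _) hgrow)
  · intro u hu h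
    obtain ⟨b, -, rfl⟩ := mem_image.1 hu
    exact hΦ.norm _ (netM_unip d K T b h)
  · rintro v ⟨g, y, hg, hy, rfl⟩ m
    set y' := g ^ m * y with hy'
    have hy'u : Unip y' := unip_mul (unip_pow hg m) hy
    set M : Fin d → Fin d → ℕ → ℝ := fun i j n => (g ^ n * y') i j with hM
    have hMu : ∀ n, Unip (g ^ n * y') := fun n => unip_mul (unip_pow hg n) hy'u
    have hMup : Up M := by
      intro i j hij
      funext n
      rw [hM]
      simp only
      rw [hMu n i j hij]
      split_ifs <;> simp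
    obtain ⟨γ, hγ1, hγ2, hγ3⟩ := red_pol (D := d) M hMup
      (fun i j => pol_entries hg y' d i (by omega) j)
    choose! r hr1 hr2 using hγ3
    have hbT : ∀ i j k, i < j → ⌊r i j k * T⌋₊ < T := by
      intro i j k hij
      rw [Nat.floor_lt (mul_nonneg (hr1 i j hij k).1 hT0.le)]
      calc r i j k * T < 1 * T := mul_lt_mul_of_pos_right (hr1 i j hij k).2 hT0
        _ = T := one_mul _
    have hTpos : 0 < T := by
      rw [hT]
      omega
    set b : Fin d → Fin d → Fin (K + 1) → Fin T := fun i j k =>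
      if hij : i < j then ⟨⌊r i j k * T⌋₊, hbT i j k hij⟩ else ⟨0, hTpos⟩ with hb
    refine ⟨G b, mem_image_of_mem G (mem_univ b), fun h hh => ?_⟩
    -- the reduced matrix
    set γh : Matrix (Fin d) (Fin d) ℝ := Matrix.of fun i j => γ i j h with hγh
    have hγhu : Unip γh := by
      intro i j hij
      rw [hγh, Matrix.of_apply, hγ1 i j hij]
      split_ifs <;> simp
    have hγhi : UnipInt γh := ⟨hγhu, fun i j => hγ2 i j h⟩
    set A : Matrix (Fin d) (Fin d) ℝ := g ^ h * y' * γh with hA
    have hAu : Unip A := unip_mul (hMu h) hγhu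
    have hAij : ∀ i j, i < j → A i j = ∑ k ∈ range (K + 1), r i j k * (h.choose k : ℝ) := by
      intro i j hij
      rw [hA, Matrix.mul_apply, ← hr2 i j hij h]
      rfl
    have hAB : ∀ i j, |A i j| ≤ B := by
      intro i j
      rcases lt_or_ge i j with hij | hij
      · rw [hAij i j hij]
        refine (abs_sum_le_sum_abs _ _).trans ?_
        calc ∑ k ∈ range (K + 1), |r i j k * (h.choose k : ℝ)| ≤
              ∑ _k ∈ range (K + 1), 1 * (L : ℝ) ^ K := by
              refine sum_le_sum fun k hk => ?_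
              rw [abs_mul, abs_of_nonneg (hr1 i j hij k).1, abs_of_nonneg (Nat.cast_nonneg _)]
              exact mul_le_mul (hr1 i j hij k).2.le
                (choose_bound hh (Nat.lt_succ_iff.1 (mem_range.1 hk))) (Nat.cast_nonneg _) zero_le_one
          _ = (K + 1) * (L : ℝ) ^ K := by
              rw [sum_const, card_range, nsmul_eq_mul]
              push_cast
              ring
          _ ≤ B := by rw [hB]; linarith
      · rw [hAu i j hij]
        have : 0 ≤ (K + 1) * (L : ℝ) ^ K := by positivity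
        split_ifs
        · rw [abs_one, hB]; linarith
        · rw [abs_zero, hB]; linarith
    set A' := netM d K T b h with hA'
    have hA'u : Unip A' := netM_unip d K T b h
    have hdiff : ∀ i j, |A i j - A' i j| ≤ (K + 1) * (L : ℝ) ^ K / T := by
      intro i j
      rcases lt_or_ge i j with hij | hij
      · have e1 : A' i j = ∑ k ∈ range (K + 1), (⌊r i j k * T⌋₊ : ℝ) / T * (h.choose k : ℝ) := by
          rw [hA']
          unfold netM
          rw [Matrix.of_apply, if_pos hij, Finset.sum_range]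
          refine sum_congr rfl fun k _ => ?_
          rw [hb]
          simp only [dif_pos hij]
        rw [hAij i j hij, e1, ← sum_sub_distrib]
        refine (abs_sum_le_sum_abs _ _).trans ?_
        calc ∑ k ∈ range (K + 1), |r i j k * (h.choose k : ℝ) -
              (⌊r i j k * T⌋₊ : ℝ) / T * (h.choose k : ℝ)| ≤
              ∑ _k ∈ range (K + 1), 1 / T * (L : ℝ) ^ K := by
              refine sum_le_sum fun k hk => ?_
              rw [← sub_mul, abs_mul, abs_of_nonneg (Nat.cast_nonneg (h.choose k) : (0 : ℝ) ≤ _)]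
              refine mul_le_mul ?_ (choose_bound hh (Nat.lt_succ_iff.1 (mem_range.1 hk)))
                (Nat.cast_nonneg _) (by positivity)
              have k1 := Nat.floor_le (mul_nonneg (hr1 i j hij k).1 hT0.le)
              have k2 := Nat.lt_floor_add_one (r i j k * T)
              have k3 : r i j k - (⌊r i j k * T⌋₊ : ℝ) / T =
                  (r i j k * T - (⌊r i j k * T⌋₊ : ℝ)) / T := by field_simp
              rw [k3, abs_div, abs_of_pos hT0]
              refine div_le_div_of_nonneg_right ?_ hT0.le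
              rw [abs_le]
              constructor <;> linarith
          _ = (K + 1) * (L : ℝ) ^ K / T := by
              rw [sum_const, card_range, nsmul_eq_mul]
              push_cast
              ring
      · rw [hAu i j hij, hA'u i j hij, sub_self, abs_zero]
        positivity
    -- the second reduction
    obtain ⟨c, hc1, hc2, hc3, hc4⟩ := red_one (fun i j => A i j) (fun i j hij => hAu i j hij) B hB0 hAB
    set cM : Matrix (Fin d) (Fin d) ℝ := Matrix.of c with hcM
    have hcMu : Unip cM := fun i j hij => hc1 i j hij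
    have hcMi : UnipInt cM := ⟨hcMu, fun i j => hc2 i j⟩
    have hAcu := unip_mul hAu hcMu
    have hA'cu := unip_mul hA'u hcMu
    have hclose : ∀ i j, |(A * cM) i j - (A' * cM) i j| < ρ := by
      intro i j
      rw [Matrix.mul_apply, Matrix.mul_apply, ← sum_sub_distrib]
      refine lt_of_le_of_lt (abs_sum_le_sum_abs _ _) ?_
      calc ∑ l, |A i l * cM l j - A' i l * cM l j| ≤
            ∑ _l : Fin d, (K + 1) * (L : ℝ) ^ K / T * Γ := by
            refine sum_le_sum fun l _ => ?_
            rw [← sub_mul, abs_mul]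
            exact mul_le_mul (hdiff i l) (hc3 l j) (abs_nonneg _) (by positivity)
        _ = d * ((K + 1) * (L : ℝ) ^ K) * Γ / T := by
            rw [sum_const, card_univ, Fintype.card_fin, nsmul_eq_mul]
            ring
        _ < ρ := by
            rw [div_lt_iff₀ hρ] at hT1
            rw [div_lt_iff₀ hT0]
            have : 0 < (K + 1) * (L : ℝ) ^ K * Γ := by positivity
            have h1 : (d + 1) * ((K + 1) * (L : ℝ) ^ K) * Γ =
                d * ((K + 1) * (L : ℝ) ^ K) * Γ + (K + 1) * (L : ℝ) ^ K * Γ := by ring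
            rw [mul_comm ρ]
            linarith
    have hbox : ∀ i j, |(A * cM) i j| ≤ 1 := by
      intro i j
      rcases lt_or_ge i j with hij | hij
      · have h1 := hc4 i j hij
        rw [Matrix.mul_apply]
        show |∑ l, A i l * c l j| ≤ 1
        rw [abs_of_nonneg h1.1]
        exact h1.2.le
      · rw [hAcu i j hij]
        split_ifs <;> simp
    have hbox' : ∀ i j, |(A' * cM) i j| ≤ 2 := by
      intro i j
      have h1 := (hclose i j).le
      have h2 := hbox i j
      have h3 : |(A' * cM) i j| ≤ |(A * cM) i j| + |(A * cM) i j - (A' * cM) i j| := by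
        have h4 := abs_sub_abs_le_abs_sub ((A' * cM) i j) ((A * cM) i j)
        rw [abs_sub_comm] at h4
        linarith
      linarith
    have hfin := hunif (A * cM) (A' * cM) hAcu hA'cu (fun i j => (hbox i j).trans (by norm_num))
      hbox' hclose
    rw [hΦ.inv A cM hAu hcMi, hΦ.inv A' cM hA'u hcMi, hA, hΦ.inv _ γh (hMu h) hγhi] at hfin
    have e1 : g ^ (m + h) * y = g ^ h * y' := by
      rw [hy', ← Matrix.mul_assoc, ← pow_add, add_comm h m]
    show ‖Φ (g ^ (m + h) * y) - G b h‖ ≤ δ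
    rw [e1]
    exact hfin

end

end Pool.Agent.Q163.NL
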