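import Mathlib

/-!
# Polynomial sequences and reduction of unipotent matrices
-/

set_option autoImplicit false

namespace Pool.Agent.Q163.NL

open Finset

/-- polynomial sequences of degree at most `D`, in the binomial basis -/
def IsP (D : ℕ) (p : ℕ → ℝ) : Prop :=
  ∃ c : ℕ → ℝ, ∀ h : ℕ, p h = ∑ k ∈ range (D + 1), c k * (h.choose k : ℝ)

lemma IsP.mono {D D' : ℕ} (hD : D ≤ D') {p : ℕ → ℝ} (hp : IsP D p) : IsP D' p := by
  obtain ⟨c, hc⟩ := hp
  refine ⟨fun k => if k < D + 1 then c k else 0, fun h => ?_⟩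
  rw [hc h]
  have h1 : range (D + 1) ⊆ range (D' + 1) := range_subset_range.2 (by omega)
  rw [← sum_subset h1 (f := fun k => (if k < D + 1 then c k else 0) * (h.choose k : ℝ))]
  · refine sum_congr rfl fun k hk => ?_
    rw [if_pos (mem_range.1 hk)]
  · intro k _ hk
    rw [mem_range] at hk
    rw [if_neg hk, zero_mul]

lemma IsP.add {D : ℕ} {p q : ℕ → ℝ} (hp : IsP D p) (hq : IsP D q) : IsP D (p + q) := by
  obtain ⟨c, hc⟩ := hp
  obtain ⟨e, he⟩ := hq
  refine ⟨fun k => c k + e k, fun h => ?_⟩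
  rw [Pi.add_apply, hc h, he h, ← sum_add_distrib]
  exact sum_congr rfl fun k _ => by ring

lemma isP_zero (D : ℕ) : IsP D 0 := ⟨fun _ => 0, fun h => by simp⟩

lemma IsP.smul {D : ℕ} {p : ℕ → ℝ} (a : ℝ) (hp : IsP D p) : IsP D (fun h => a * p h) := by
  obtain ⟨c, hc⟩ := hp
  refine ⟨fun k => a * c k, fun h => ?_⟩
  show a * p h = _
  rw [hc h, mul_sum]
  exact sum_congr rfl fun k _ => by ring

lemma IsP.neg {D : ℕ} {p : ℕ → ℝ} (hp : IsP D p) : IsP D (-p) := by
  have h1 := hp.smul (-1)
  have h2 : (fun h => -1 * p h) = -p := by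
    funext h
    rw [Pi.neg_apply]
    ring
  rwa [h2] at h1

lemma IsP.sum {D : ℕ} {ι : Type*} (s : Finset ι) {p : ι → ℕ → ℝ} (hp : ∀ i ∈ s, IsP D (p i)) :
    IsP D (∑ i ∈ s, p i) := by
  classical
  induction s using Finset.induction_on with
  | empty => rw [sum_empty]; exact isP_zero D
  | insert i s hi ih =>
    rw [sum_insert hi]
    exact (hp i (mem_insert_self _ _)).add (ih fun j hj => hp j (mem_insert_of_mem hj))

lemma isP_const {p : ℕ → ℝ} (h : ∀ n, p n = p 0) : IsP 0 p :=
  ⟨fun _ => p 0, fun n => by rw [h n]; simp⟩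

lemma IsP.const {p : ℕ → ℝ} (hp : IsP 0 p) (n : ℕ) : p n = p 0 := by
  obtain ⟨c, hc⟩ := hp
  rw [hc n, hc 0]
  simp

lemma isP_up {D : ℕ} {p : ℕ → ℝ} (hp : IsP D fun h => p (h + 1) - p h) : IsP (D + 1) p := by
  obtain ⟨c, hc⟩ := hp
  refine ⟨fun k => if k = 0 then p 0 else c (k - 1), fun h => ?_⟩
  induction h with
  | zero =>
    rw [sum_range_succ']
    simp
  | succ h ih =>
    have h1 := hc h
    have h2 : p (h + 1) = p h + ∑ k ∈ range (D + 1), c k * (h.choose k : ℝ) := by linarith
    rw [h2, ih, sum_range_succ', sum_range_succ' (n := D + 1)]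
    simp only [Nat.succ_ne_zero, if_false, if_true, Nat.add_sub_cancel, Nat.choose_zero_right]
    have h3 : ∀ k, (((h + 1).choose (k + 1) : ℕ) : ℝ) = (h.choose k : ℝ) + (h.choose (k + 1) : ℝ) := by
      intro k
      rw [Nat.choose_succ_succ]
      push_cast
      rfl
    simp only [h3, mul_add, sum_add_distrib]
    ring

lemma IsP.down {D : ℕ} {p : ℕ → ℝ} (hp : IsP (D + 1) p) : IsP D fun h => p (h + 1) - p h := by
  obtain ⟨c, hc⟩ := hp
  refine ⟨fun k => c (k + 1), fun h => ?_⟩
  show p (h + 1) - p h = _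
  rw [hc (h + 1), hc h, sum_range_succ', sum_range_succ' (n := D + 1)]
  have h3 : ∀ k, (((h + 1).choose (k + 1) : ℕ) : ℝ) = (h.choose k : ℝ) + (h.choose (k + 1) : ℝ) := by
    intro k
    rw [Nat.choose_succ_succ]
    push_cast
    rfl
  simp only [h3, mul_add, sum_add_distrib, Nat.choose_zero_right]
  ring

lemma isP_mul : ∀ (n a b : ℕ) (p q : ℕ → ℝ), a + b = n → IsP a p → IsP b q → IsP n (p * q) := by
  intro n
  induction n with
  | zero =>
    intro a b p q hab hp hq
    obtain rfl : a = 0 := by omega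
    obtain rfl : b = 0 := by omega
    exact isP_const fun m => by rw [Pi.mul_apply, Pi.mul_apply, hp.const m, hq.const m]
  | succ n ih =>
    intro a b p q hab hp hq
    rcases Nat.eq_zero_or_pos a with ha | ha
    · subst ha
      obtain rfl : b = n + 1 := by omega
      have h1 : p * q = fun h => p 0 * q h := by
        funext h
        rw [Pi.mul_apply, hp.const h]
      rw [h1]
      exact hq.smul _
    rcases Nat.eq_zero_or_pos b with hb | hb
    · subst hb
      obtain rfl : a = n + 1 := by omega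
      have h1 : p * q = fun h => q 0 * p h := by
        funext h
        rw [Pi.mul_apply, hq.const h, mul_comm]
      rw [h1]
      exact hp.smul _
    obtain ⟨a', rfl⟩ : ∃ a', a = a' + 1 := ⟨a - 1, by omega⟩
    obtain ⟨b', rfl⟩ : ∃ b', b = b' + 1 := ⟨b - 1, by omega⟩
    refine isP_up ?_
    have hq1 : IsP (b' + 1) fun h => q (h + 1) := by
      have h1 := hq.add (hq.down.mono (Nat.le_succ b'))
      have h2 : q + (fun h => q (h + 1) - q h) = fun h => q (h + 1) := by
        funext h
        rw [Pi.add_apply]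
        ring
      rwa [h2] at h1
    have h1 := ih a' (b' + 1) _ _ (by omega) hp.down hq1
    have h2 := ih (a' + 1) b' _ _ (by omega) hp hq.down
    have h3 := h1.add h2
    have h4 : ((fun h => p (h + 1) - p h) * fun h => q (h + 1)) + (p * fun h => q (h + 1) - q h) =
        fun h => (p * q) (h + 1) - (p * q) h := by
      funext h
      simp only [Pi.add_apply, Pi.mul_apply]
      ring
    rwa [h4] at h3

lemma IsP.mul {a b n : ℕ} {p q : ℕ → ℝ} (hp : IsP a p) (hq : IsP b q) (h : a + b ≤ n) :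
    IsP n (p * q) := (isP_mul _ a b p q rfl hp hq).mono h

/-- the columns of the reducing matrix -/
noncomputable def gam {R : Type} [CommRing R] {d : ℕ} (M : Fin d → Fin d → R)
    (Z : Fin d → Fin d → R → R) (j : Fin d) (i : Fin d) : R :=
  if i < j then - Z i j (M i j + ∑ l ∈ (Ioo i j).attach, M i l * gam M Z j l)
  else if i = j then 1 else 0
termination_by (j : ℕ) - (i : ℕ)
decreasing_by
  have h := mem_Ioo.1 l.2
  have _h1 := Fin.lt_def.1 h.1
  have _h2 := Fin.lt_def.1 h.2
  omega

section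
variable {R : Type} [CommRing R] {d : ℕ} (M : Fin d → Fin d → R) (Z : Fin d → Fin d → R → R)

/-- the entry before rounding -/
noncomputable def ent (i j : Fin d) : R := M i j + ∑ l ∈ Ioo i j, M i l * gam M Z j l

lemma gam_lt {i j : Fin d} (h : i < j) : gam M Z j i = - Z i j (ent M Z i j) := by
  rw [gam, if_pos h, ent]
  congr 3
  exact sum_attach (Ioo i j) fun l => M i l * gam M Z j l

lemma gam_self (j : Fin d) : gam M Z j j = 1 := by
  rw [gam, if_neg (lt_irrefl j), if_pos rfl]

lemma gam_gt {i j : Fin d} (h : j < i) : gam M Z j i = 0 := by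
  rw [gam, if_neg (not_lt.2 h.le), if_neg (ne_of_gt h)]

/-- unipotent -/
def Up (M : Fin d → Fin d → R) : Prop := ∀ i j, j ≤ i → M i j = if i = j then 1 else 0

lemma mul_gam (hM : Up M) (i j : Fin d) : ∑ l, M i l * gam M Z j l =
    if i < j then ent M Z i j - Z i j (ent M Z i j) else if i = j then 1 else 0 := by
  have h0 : ∀ l, l < i → M i l = 0 := fun l hl => by rw [hM i l hl.le, if_neg (ne_of_gt hl)]
  have h1 : M i i = 1 := by rw [hM i i le_rfl, if_pos rfl]
  rcases lt_trichotomy i j with h | h | h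
  · rw [if_pos h]
    have h2 : ∑ l, M i l * gam M Z j l = ∑ l ∈ Icc i j, M i l * gam M Z j l := by
      refine (sum_subset (subset_univ _) fun l _ hl => ?_).symm
      rw [mem_Icc, not_and_or, not_le, not_le] at hl
      rcases hl with hl | hl
      · rw [h0 l hl, zero_mul]
      · rw [gam_gt M Z hl, mul_zero]
    have h3 : Icc i j = insert i (insert j (Ioo i j)) := by
      ext l
      simp only [mem_Icc, mem_insert, mem_Ioo]
      constructor
      · rintro ⟨a1, a2⟩
        rcases a1.eq_or_lt with a3 | a3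
        · exact Or.inl a3.symm
        rcases a2.eq_or_lt with a4 | a4
        · exact Or.inr (Or.inl a4)
        · exact Or.inr (Or.inr ⟨a3, a4⟩)
      · rintro (rfl | rfl | ⟨a1, a2⟩)
        · exact ⟨le_rfl, h.le⟩
        · exact ⟨h.le, le_rfl⟩
        · exact ⟨a1.le, a2.le⟩
    have h4 : i ∉ insert j (Ioo i j) := by
      rw [mem_insert, not_or, mem_Ioo]
      exact ⟨ne_of_lt h, fun h5 => lt_irrefl i h5.1⟩
    have h5 : j ∉ Ioo i j := fun h5 => lt_irrefl j (mem_Ioo.1 h5).2
    rw [h2, h3, sum_insert h4, sum_insert h5, h1, one_mul, gam_self, mul_one, gam_lt M Z h]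
    unfold ent
    ring
  · subst h
    rw [if_neg (lt_irrefl i), if_pos rfl, sum_eq_single i]
    · rw [h1, one_mul, gam_self]
    · intro l _ hl
      rcases lt_or_gt_of_ne hl with h2 | h2
      · rw [h0 l h2, zero_mul]
      · rw [gam_gt M Z h2, mul_zero]
    · intro h2
      exact absurd (mem_univ i) h2
  · rw [if_neg (not_lt.2 h.le), if_neg (ne_of_gt h)]
    refine sum_eq_zero fun l _ => ?_
    rcases lt_or_ge l i with h2 | h2
    · rw [h0 l h2, zero_mul]
    · rw [gam_gt M Z (lt_of_lt_of_le h h2), mul_zero]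

end

open Classical in
/-- the integral part of a polynomial sequence -/
noncomputable def zp (D : ℕ) (p : ℕ → ℝ) : ℕ → ℝ :=
  if h : IsP D p then fun n => ∑ k ∈ range (D + 1), (⌊h.choose k⌋ : ℝ) * (n.choose k : ℝ) else 0

lemma zp_int (D : ℕ) (p : ℕ → ℝ) (n : ℕ) : ∃ z : ℤ, zp D p n = z := by
  unfold zp
  split_ifs with h
  · exact ⟨∑ k ∈ range (D + 1), ⌊h.choose k⌋ * (n.choose k : ℤ), by push_cast; rfl⟩
  · exact ⟨0, by simp⟩

lemma zp_isP (D : ℕ) (p : ℕ → ℝ) : IsP D (zp D p) := by
  unfold zp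
  split_ifs with h
  · exact ⟨fun k => (⌊h.choose k⌋ : ℝ), fun n => rfl⟩
  · exact isP_zero D

lemma zp_red {D : ℕ} {p : ℕ → ℝ} (hp : IsP D p) : ∃ r : ℕ → ℝ, (∀ k, 0 ≤ r k ∧ r k < 1) ∧
    ∀ n : ℕ, p n - zp D p n = ∑ k ∈ range (D + 1), r k * (n.choose k : ℝ) := by
  refine ⟨fun k => Int.fract (hp.choose k), fun k => ⟨Int.fract_nonneg _, Int.fract_lt_one _⟩,
    fun n => ?_⟩
  unfold zp
  rw [dif_pos hp, hp.choose_spec n, ← sum_sub_distrib]
  refine sum_congr rfl fun k _ => ?_
  rw [← sub_mul, Int.self_sub_floor]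

/-- **Reduction of polynomial sequences of unipotent matrices.** -/
theorem red_pol {d D : ℕ} (M : Fin d → Fin d → ℕ → ℝ) (hM : Up M) (hP : ∀ i j, IsP D (M i j)) :
    ∃ γ : Fin d → Fin d → ℕ → ℝ, Up γ ∧ (∀ i j n, ∃ z : ℤ, γ i j n = z) ∧
      ∀ i j, i < j → ∃ r : ℕ → ℝ, (∀ k, 0 ≤ r k ∧ r k < 1) ∧
        ∀ n : ℕ, ∑ l, M i l n * γ l j n = ∑ k ∈ range (D * d + 1), r k * (n.choose k : ℝ) := by
  set Z : Fin d → Fin d → (ℕ → ℝ) → (ℕ → ℝ) := fun i j => zp (D * ((j : ℕ) - i)) with hZ
  have hdeg : ∀ t : ℕ, ∀ i j : Fin d, i < j → (j : ℕ) - i ≤ t →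
      IsP (D * ((j : ℕ) - i)) (ent M Z i j) ∧ IsP (D * ((j : ℕ) - i)) (gam M Z j i) := by
    intro t
    induction t with
    | zero =>
      intro i j hij ht
      have := Fin.lt_def.1 hij
      omega
    | succ t ih =>
      intro i j hij ht
      have hij' := Fin.lt_def.1 hij
      have h1 : IsP (D * ((j : ℕ) - i)) (ent M Z i j) := by
        unfold ent
        refine ((hP i j).mono ?_).add (IsP.sum _ fun l hl => ?_)
        · have : 1 ≤ (j : ℕ) - i := by omega
          calc D = D * 1 := (mul_one D).symm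
            _ ≤ _ := Nat.mul_le_mul_left D this
        · rw [mem_Ioo] at hl
          have a1 := Fin.lt_def.1 hl.1
          have a2 := Fin.lt_def.1 hl.2
          refine (hP i l).mul (ih l j hl.2 (by omega)).2 ?_
          calc D + D * ((j : ℕ) - l) = D * (1 + ((j : ℕ) - l)) := by ring
            _ ≤ D * ((j : ℕ) - i) := Nat.mul_le_mul_left D (by omega)
      refine ⟨h1, ?_⟩
      rw [gam_lt M Z hij]
      exact (zp_isP _ _).neg
  refine ⟨fun i j => gam M Z j i, ?_, ?_, ?_⟩
  · intro i j hij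
    show gam M Z j i = _
    rcases hij.eq_or_lt with h | h
    · subst h
      rw [gam_self, if_pos rfl]
    · rw [gam_gt M Z h, if_neg (ne_of_gt h)]
  · intro i j n
    rcases lt_trichotomy i j with h | h | h
    · obtain ⟨z, hz⟩ := zp_int (D * ((j : ℕ) - i)) (ent M Z i j) n
      refine ⟨-z, ?_⟩
      show gam M Z j i n = _
      rw [gam_lt M Z h, Pi.neg_apply]
      push_cast
      rw [← hz]
    · refine ⟨1, ?_⟩
      show gam M Z j i n = _
      subst h
      rw [gam_self]
      simp
    · refine ⟨0, ?_⟩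
      show gam M Z j i n = _
      rw [gam_gt M Z h]
      simp
  · intro i j hij
    have hle : D * ((j : ℕ) - i) + 1 ≤ D * d + 1 := by
      have := j.2
      exact Nat.succ_le_succ (Nat.mul_le_mul_left D (by omega))
    obtain ⟨r, hr, hr2⟩ := zp_red (hdeg _ i j hij le_rfl).1
    refine ⟨fun k => if k < D * ((j : ℕ) - i) + 1 then r k else 0, fun k => ?_, fun n => ?_⟩
    · simp only
      split_ifs
      · exact hr k
      · exact ⟨le_rfl, one_pos⟩
    · have h1 := congrFun (mul_gam M Z hM i j) n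
      rw [if_pos hij, Finset.sum_apply] at h1
      simp only [Pi.mul_apply, Pi.sub_apply] at h1
      rw [h1]
      have h2 := hr2 n
      rw [hZ]
      simp only
      rw [h2]
      have h3 : range (D * ((j : ℕ) - i) + 1) ⊆ range (D * d + 1) := range_subset_range.2 hle
      rw [← sum_subset h3 (f := fun k => (if k < D * ((j : ℕ) - i) + 1 then r k else 0) *
        (n.choose k : ℝ))]
      · refine sum_congr rfl fun k hk => ?_
        rw [if_pos (mem_range.1 hk)]
      · intro k _ hk
        rw [mem_range] at hk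
        rw [if_neg hk, zero_mul]

/-- **Reduction of one unipotent matrix, with bounds.** -/
theorem red_one {d : ℕ} (A : Fin d → Fin d → ℝ) (hA : Up A) (B : ℝ) (hB : 0 ≤ B)
    (hAB : ∀ i j, |A i j| ≤ B) :
    ∃ γ : Fin d → Fin d → ℝ, Up γ ∧ (∀ i j, ∃ z : ℤ, γ i j = z) ∧
      (∀ i j, |γ i j| ≤ (1 + B + B * d) ^ d) ∧
      ∀ i j, i < j → 0 ≤ ∑ l, A i l * γ l j ∧ ∑ l, A i l * γ l j < 1 := by
  set Z : Fin d → Fin d → ℝ → ℝ := fun _ _ t => (⌊t⌋ : ℝ) with hZ
  set K := 1 + B + B * d with hK
  have hK1 : 1 ≤ K := by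
    have : 0 ≤ B * d := by positivity
    linarith
  have hb : ∀ t : ℕ, ∀ i j : Fin d, i < j → (j : ℕ) - i ≤ t → |gam A Z j i| ≤ K ^ ((j : ℕ) - i) := by
    intro t
    induction t with
    | zero =>
      intro i j hij ht
      have := Fin.lt_def.1 hij
      omega
    | succ t ih =>
      intro i j hij ht
      have hij' := Fin.lt_def.1 hij
      have h1 : |ent A Z i j| ≤ B + B * d * K ^ ((j : ℕ) - i - 1) := by
        unfold ent
        refine (abs_add_le _ _).trans (add_le_add (hAB i j) ?_)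
        refine (abs_sum_le_sum_abs _ _).trans ?_
        calc ∑ l ∈ Ioo i j, |A i l * gam A Z j l| ≤ ∑ _l ∈ Ioo i j, B * K ^ ((j : ℕ) - i - 1) := by
              refine sum_le_sum fun l hl => ?_
              rw [mem_Ioo] at hl
              have a1 := Fin.lt_def.1 hl.1
              have a2 := Fin.lt_def.1 hl.2
              rw [abs_mul]
              refine mul_le_mul (hAB i l) ?_ (abs_nonneg _) hB
              exact (ih l j hl.2 (by omega)).trans (pow_le_pow_right₀ hK1 (by omega))
          _ = ((Ioo i j).card : ℝ) * (B * K ^ ((j : ℕ) - i - 1)) := by rw [sum_const, nsmul_eq_mul]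
          _ ≤ d * (B * K ^ ((j : ℕ) - i - 1)) := by
              refine mul_le_mul_of_nonneg_right ?_ (by positivity)
              have h2 : (Ioo i j).card ≤ d := by
                have := card_le_univ (Ioo i j)
                rwa [Fintype.card_fin] at this
              exact_mod_cast h2
          _ = B * d * K ^ ((j : ℕ) - i - 1) := by ring
      rw [gam_lt A Z hij, abs_neg]
      show |(⌊ent A Z i j⌋ : ℝ)| ≤ _
      have h3 : |(⌊ent A Z i j⌋ : ℝ)| ≤ |ent A Z i j| + 1 := by
        have a1 := Int.floor_le (ent A Z i j)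
        have a2 := Int.lt_floor_add_one (ent A Z i j)
        have a3 := neg_abs_le (ent A Z i j)
        have a4 := le_abs_self (ent A Z i j)
        rw [abs_le]
        constructor <;> linarith
      have h4 : K ^ ((j : ℕ) - i) = K * K ^ ((j : ℕ) - i - 1) := by
        rw [← pow_succ']
        congr 1
        omega
      have h5 : 1 ≤ K ^ ((j : ℕ) - i - 1) := one_le_pow₀ hK1
      rw [h4]
      calc _ ≤ _ := h3
        _ ≤ B + B * d * K ^ ((j : ℕ) - i - 1) + 1 := by linarith
        _ ≤ K * K ^ ((j : ℕ) - i - 1) := by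
            rw [hK] at h5 ⊢
            nlinarith
  refine ⟨fun i j => gam A Z j i, ?_, ?_, ?_, ?_⟩
  · intro i j hij
    show gam A Z j i = _
    rcases hij.eq_or_lt with h | h
    · subst h
      rw [gam_self, if_pos rfl]
    · rw [gam_gt A Z h, if_neg (ne_of_gt h)]
  · intro i j
    show ∃ z : ℤ, gam A Z j i = _
    rcases lt_trichotomy i j with h | h | h
    · refine ⟨-⌊ent A Z i j⌋, ?_⟩
      rw [gam_lt A Z h]
      push_cast
      rfl
    · refine ⟨1, ?_⟩
      subst h
      rw [gam_self]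
      simp
    · refine ⟨0, ?_⟩
      rw [gam_gt A Z h]
      simp
  · intro i j
    show |gam A Z j i| ≤ _
    rcases lt_trichotomy i j with h | h | h
    · refine (hb _ i j h le_rfl).trans (pow_le_pow_right₀ hK1 ?_)
      have := j.2
      omega
    · subst h
      rw [gam_self, abs_one]
      exact one_le_pow₀ hK1
    · rw [gam_gt A Z h, abs_zero]
      positivity
  · intro i j hij
    have h1 := mul_gam A Z hA i j
    rw [if_pos hij] at h1
    show 0 ≤ ∑ l, A i l * gam A Z j l ∧ ∑ l, A i l * gam A Z j l < 1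
    rw [h1]
    show 0 ≤ ent A Z i j - (⌊ent A Z i j⌋ : ℝ) ∧ ent A Z i j - (⌊ent A Z i j⌋ : ℝ) < 1
    rw [Int.self_sub_floor]
    exact ⟨Int.fract_nonneg _, Int.fract_lt_one _⟩

end Pool.Agent.Q163.NL
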