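import Pool.Agent.Q163.NL.Long
import Pool.Agent.Q163.RX.Thr
import Pool.Agent.Q163.RX.Nec
import Pool.Agent.Q163.LX.Thr
import Pool.Agent.Q163.LX.Nec

/-!
# Random functions: the exact thresholds
-/

set_option autoImplicit false

namespace Pool.Agent.Q163.NL

open Finset Filter Topology MeasureTheory ProbabilityTheory
open Pool.Agent.Q163.ND (Thin)
open Pool.Agent.Q163.RP
open Pool.Agent.Q163.RX (cm es signs mass ll)
open Pool.Agent.Q163.LX (lll cs)

lemma rnd_sign (P : Set ℕ) (ω : ℕ → Bool) (n : ℕ) :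
    mult (sg P es ω) n = 1 ∨ mult (sg P es ω) n = -1 :=
  eq_or_eq_neg_of_abs_eq (abs_mult _ (abs_sg signs P ω) n)

lemma prod_shift (S : Finset ℕ) (x : ℕ → ℝ) (n : ℕ) :
    ∏ h ∈ S, x (n + h) = ∏ i : Fin S.card, x (1 * n + S.orderEmbOfFin rfl i) := by
  conv_lhs => rw [← map_orderEmbOfFin_univ S rfl]
  rw [prod_map]
  refine prod_congr rfl fun i _ => ?_
  rw [one_mul]
  rfl

lemma shift_ne (S : Finset ℕ) (i j : Fin S.card) (hij : i ≠ j) :
    1 * S.orderEmbOfFin rfl j ≠ 1 * S.orderEmbOfFin rfl i := by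
  rw [one_mul, one_mul]
  exact fun h => hij ((S.orderEmbOfFin rfl).injective h).symm

lemma avg_nat : Avg fun N _ => 1 / (N : ℝ) := by
  refine ⟨fun N n => by positivity, ?_⟩
  filter_upwards [eventually_ge_atTop 1] with N hN
  have hNR : (0 : ℝ) < N := by exact_mod_cast hN
  rw [sum_const, Nat.card_Icc, Nat.add_sub_cancel, nsmul_eq_mul]
  have : (N : ℝ) * (1 / N) = 1 := by field_simp
  rw [this]
  norm_num

lemma avg_log : Avg fun N n => 1 / (n * Real.log N) := by
  refine ⟨fun N n => ?_, ?_⟩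
  · have := Real.log_natCast_nonneg N
    positivity
  · have hlog : Tendsto (fun N : ℕ => Real.log (N : ℝ)) atTop atTop :=
      Real.tendsto_log_atTop.comp tendsto_natCast_atTop_atTop
    filter_upwards [hlog.eventually_ge_atTop 2] with N hN
    have e1 : ∑ n ∈ Icc 1 N, 1 / ((n : ℝ) * Real.log N) =
        (∑ n ∈ Icc 1 N, 1 / (n : ℝ)) / Real.log N := by
      rw [sum_div]
      refine sum_congr rfl fun n _ => ?_
      rw [div_div]
    rw [e1, div_le_iff₀ (by linarith)]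
    have := harm_le N
    linarith

lemma dec_nat (P : Set ℕ) (hP : Tendsto (mass P ll) atTop atTop) (f : ℕ → ℂ)
    (hf : ∀ n, ‖f n‖ ≤ 1) : ∀ᵐ ω ∂cm, Dec (fun N _ => 1 / (N : ℝ)) f (mult (sg P es ω)) := by
  unfold Dec
  rw [ae_all_iff]
  intro A
  rw [ae_all_iff]
  intro m
  rw [ae_all_iff]
  intro L
  rw [ae_all_iff]
  intro S
  by_cases hS : S ⊆ range L
  swap
  · exact Eventually.of_forall fun ω h => absurd h hS
  by_cases hS1 : S.Nonempty
  swap
  · exact Eventually.of_forall fun ω _ h => absurd h hS1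
  set K := Real.exp (∑ h ∈ range L, ‖cf A m h‖) with hK
  have hK0 : 0 < K := Real.exp_pos _
  have h1 := Pool.Agent.Q163.RX.thr P hP S.card (card_pos.2 hS1) (fun _ => 1)
    (fun i => S.orderEmbOfFin rfl i) (fun _ => le_rfl) (shift_ne S)
    (fun n => W f (cf A m) L S n / K) (fun n => by
      rw [abs_div, abs_of_pos hK0, div_le_one hK0]
      exact W_abs_le f hf _ L S hS n)
  filter_upwards [h1] with ω h2 _ _
  have h3 := h2.const_mul K
  rw [mul_zero] at h3
  refine h3.congr fun N => ?_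
  rw [← mul_div_assoc, mul_sum, div_eq_mul_one_div, sum_mul]
  refine sum_congr rfl fun n _ => ?_
  rw [prod_shift S (mult (sg P es ω)) n]
  field_simp

lemma dec_log (P : Set ℕ) (hP : Tendsto (mass P lll) atTop atTop) (f : ℕ → ℂ)
    (hf : ∀ n, ‖f n‖ ≤ 1) :
    ∀ᵐ ω ∂cm, Dec (fun N n => 1 / (n * Real.log N)) f (mult (sg P es ω)) := by
  unfold Dec
  rw [ae_all_iff]
  intro A
  rw [ae_all_iff]
  intro m
  rw [ae_all_iff]
  intro L
  rw [ae_all_iff]
  intro S
  by_cases hS : S ⊆ range L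
  swap
  · exact Eventually.of_forall fun ω h => absurd h hS
  by_cases hS1 : S.Nonempty
  swap
  · exact Eventually.of_forall fun ω _ h => absurd h hS1
  set K := Real.exp (∑ h ∈ range L, ‖cf A m h‖) with hK
  have hK0 : 0 < K := Real.exp_pos _
  have h1 := Pool.Agent.Q163.LX.thr P hP S.card (card_pos.2 hS1) (fun _ => 1)
    (fun i => S.orderEmbOfFin rfl i) (fun _ => le_rfl) (shift_ne S)
    (fun n => W f (cf A m) L S n / K) (fun n => by
      rw [abs_div, abs_of_pos hK0, div_le_one hK0]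
      exact W_abs_le f hf _ L S hS n)
  filter_upwards [h1] with ω h2 _ _
  have h3 := h2.const_mul K
  rw [mul_zero] at h3
  refine h3.congr fun N => ?_
  rw [← mul_div_assoc, mul_sum, sum_div]
  refine sum_congr rfl fun n _ => ?_
  rw [prod_shift S (mult (sg P es ω)) n]
  unfold cs
  field_simp

/-- thin sets consist of sequences bounded by one -/
lemma thin_norm {V : Set (ℕ → ℂ)} (hV : Thin V) : ∀ v ∈ V, ∀ n, ‖v n‖ ≤ 1 := by
  intro v hv n
  refine le_of_forall_pos_le_add fun δ hδ => ?_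
  obtain ⟨L, ⟨U, -, h1, h2⟩, hL⟩ := ((hV δ hδ).and (eventually_ge_atTop 1)).exists
  obtain ⟨u, hu, h3⟩ := h2 v hv n
  have h4 := h3 0 (by omega)
  have h5 := h1 u hu 0
  rw [add_zero] at h4
  calc ‖v n‖ = ‖u 0 + (v n - u 0)‖ := by rw [add_sub_cancel]
    _ ≤ ‖u 0‖ + ‖v n - u 0‖ := norm_add_le _ _
    _ ≤ 1 + δ := add_le_add h5 h4

theorem suff_nat (P : Set ℕ) (hP : Tendsto (mass P ll) atTop atTop) (f : ℕ → ℂ)
    (hf : ∀ n, ‖f n‖ ≤ 1) : ∀ᵐ ω ∂cm, ∀ V : Set (ℕ → ℂ), Thin V →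
      Disj (fun n => f n * mult (sg P es ω) n) V := by
  filter_upwards [dec_nat P hP f hf] with ω hω V hV
  have hx := fun n => rnd_sign P ω n
  refine disj (fun n => ?_) (thin_norm hV) fun ε hε =>
    core avg_nat hf (fun n _ => hx n) hω hV (thin_norm hV) ε hε
  rw [norm_mul, Complex.norm_real, Real.norm_eq_abs, abs_mult _ (abs_sg signs P ω) n, mul_one]
  exact hf n

theorem suff_log (P : Set ℕ) (hP : Tendsto (mass P lll) atTop atTop) (f : ℕ → ℂ)
    (hf : ∀ n, ‖f n‖ ≤ 1) : ∀ᵐ ω ∂cm, ∀ V : Set (ℕ → ℂ), Thin V →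
      DisjIter (fun n => f n * mult (sg P es ω) n) V := by
  filter_upwards [dec_log P hP f hf] with ω hω V hV
  have hx := fun n => rnd_sign P ω n
  refine disjIter (fun n => ?_) (thin_norm hV) fun ε hε =>
    core avg_log hf (fun n _ => hx n) hω hV (thin_norm hV) ε hε
  rw [norm_mul, Complex.norm_real, Real.norm_eq_abs, abs_mult _ (abs_sg signs P ω) n, mul_one]
  exact hf n

end Pool.Agent.Q163.NL
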